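import Mathlib

/-!
# Weighted Tsen-Lang properties

* `wcost l i w = w ^ i * l ^ v_l (w)`: the cost of an equation of weight `w`, and the value of a
  variable of weight `w`;
* `WTL l i K`: weighted homogeneous systems over `K` have a nontrivial zero if the costs of the
  equations are less than the values of the variables;
* `PrimeTo l K M`: `M` is a union of finite Galois extensions of `K` of degree prime to `l`;
* `WTLup l K`: `WTL l 1` holds for some extension of `K` of that kind.
-/

set_option autoImplicit false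

open MvPolynomial

namespace ZC

universe u v

/-- the cost of an equation of weight `w`, the value of a variable of weight `w` -/
def wcost (l i w : ℕ) : ℕ := w ^ i * l ^ padicValNat l w

/-- weighted homogeneous systems over `K` have a nontrivial zero if the costs of the
equations are less than the values of the variables -/
def WTL (l i : ℕ) (K : Type u) [Field K] : Prop :=
  ∀ (ι σ : Type) [Fintype ι] [Fintype σ] (D : ι → ℕ) (w : σ → ℕ) (f : ι → MvPolynomial σ K),
    (∀ a, IsWeightedHomogeneous w (f a) (D a)) → (∀ a, 0 < D a) → (∀ s, 0 < w s) →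
    ∑ a, wcost l i (D a) < ∑ s, wcost l i (w s) →
    ∃ x : σ → K, x ≠ 0 ∧ ∀ a, eval x (f a) = 0

/-- `M` is a union of finite Galois extensions of `K` of degree prime to `l` -/
def PrimeTo (l : ℕ) (K : Type u) (M : Type v) [Field K] [Field M] [Algebra K M] : Prop :=
  ∀ s : Finset M, ∃ E : IntermediateField K M, (s : Set M) ⊆ E ∧ FiniteDimensional K E ∧
    IsGalois K E ∧ (Module.finrank K E).Coprime l

/-- `WTL l 1` holds for a union of finite Galois extensions of degree prime to `l` -/
def WTLup (l : ℕ) (K : Type u) [Field K] : Prop :=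
  ∃ (M : Type u) (_ : Field M) (_ : Algebra K M), PrimeTo l K M ∧ WTL l 1 M

theorem wcost_pos {l : ℕ} (hl : 0 < l) (i : ℕ) {w : ℕ} (hw : 0 < w) : 0 < wcost l i w :=
  Nat.mul_pos (Nat.pow_pos hw) (Nat.pow_pos hl)

theorem wcost_succ (l i w : ℕ) : wcost l (i + 1) w = w * wcost l i w := by
  unfold wcost
  ring

/-- monomials in elements of a graded kind -/
theorem monomial_mem {A σ : Type*} [CommSemiring A] (p : ℕ → A → Prop) (h1 : p 0 1)
    (hmul : ∀ m n a b, p m a → p n b → p (m + n) (a * b)) (w : σ → ℕ) (P : σ → A)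
    (hP : ∀ s, p (w s) (P s)) (d : σ →₀ ℕ) :
    p (Finsupp.weight w d) (d.prod fun s k => P s ^ k) := by
  classical
  induction d using Finsupp.induction_linear with
  | zero => simpa using h1
  | add d e hd he =>
    rw [map_add, Finsupp.prod_add_index' (fun _ => pow_zero _) (fun _ _ _ => pow_add _ _ _)]
    exact hmul _ _ _ _ hd he
  | single s k =>
    have h2 : (Finsupp.single s k).prod (fun s k => P s ^ k) = P s ^ k :=
      Finsupp.prod_single_index (pow_zero _)
    rw [Finsupp.weight_single, h2]
    clear h2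
    induction k with
    | zero => simpa using h1
    | succ k ih =>
      rw [pow_succ, succ_nsmul]
      exact hmul _ _ _ _ ih (hP s)

/-- the values of a weighted homogeneous polynomial at elements of a graded kind -/
theorem eval₂_mem {R A σ : Type*} [CommSemiring R] [CommSemiring A] (φ : R →+* A)
    (p : ℕ → A → Prop) (h1 : p 0 1)
    (hmul : ∀ m n a b, p m a → p n b → p (m + n) (a * b))
    (h0 : ∀ m, p m 0) (hadd : ∀ m a b, p m a → p m b → p m (a + b))
    (hφ : ∀ r, p 0 (φ r)) (w : σ → ℕ) (P : σ → A)
    (hP : ∀ s, p (w s) (P s)) {f : MvPolynomial σ R} {D : ℕ} (hf : IsWeightedHomogeneous w f D) :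
    p D (eval₂ φ P f) := by
  classical
  rw [eval₂_eq]
  refine Finset.sum_induction _ (p D) (hadd D) (h0 D) fun d hd => ?_
  have h2 : Finsupp.weight w d = D := hf (mem_support_iff.mp hd)
  rw [← h2]
  have h3 := hmul 0 _ _ _ (hφ (f.coeff d)) (monomial_mem p h1 hmul w P hP d)
  rw [zero_add] at h3
  exact h3

/-- weighted scaling -/
theorem eval_weighted_smul {K σ : Type*} [CommSemiring K] {w : σ → ℕ} {f : MvPolynomial σ K}
    {D : ℕ} (hf : IsWeightedHomogeneous w f D) (c : K) (x : σ → K) :
    eval (fun s => c ^ w s * x s) f = c ^ D * eval x f := by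
  rw [eval_eq, eval_eq, Finset.mul_sum]
  refine Finset.sum_congr rfl fun d hd => ?_
  have h1 : ∏ i ∈ d.support, (c ^ w i * x i) ^ d i = c ^ D * ∏ i ∈ d.support, x i ^ d i := by
    simp only [mul_pow, Finset.prod_mul_distrib]
    congr 1
    rw [← hf (mem_support_iff.mp hd), Finsupp.weight_apply, Finsupp.sum,
      ← Finset.prod_pow_eq_pow_sum]
    refine Finset.prod_congr rfl fun i _ => ?_
    rw [← pow_mul, smul_eq_mul, mul_comm]
  rw [h1]
  ring

/-- the property for arbitrary finite types -/
theorem WTL.exists_zero {l i : ℕ} {K : Type u} [Field K] (h : WTL l i K) {ι σ : Type*}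
    [Fintype ι] [Fintype σ] (D : ι → ℕ) (w : σ → ℕ) (f : ι → MvPolynomial σ K)
    (hf : ∀ a, IsWeightedHomogeneous w (f a) (D a)) (hD : ∀ a, 0 < D a) (hw : ∀ s, 0 < w s)
    (hlt : ∑ a, wcost l i (D a) < ∑ s, wcost l i (w s)) :
    ∃ x : σ → K, x ≠ 0 ∧ ∀ a, eval x (f a) = 0 := by
  classical
  let a := Fintype.equivFin ι
  let b := Fintype.equivFin σ
  obtain ⟨x, hx0, hx⟩ := h (Fin (Fintype.card ι)) (Fin (Fintype.card σ))
    (fun i => D (a.symm i)) (fun s => w (b.symm s))
    (fun i => rename b (f (a.symm i)))
    (fun i => by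
      intro d hd
      obtain ⟨d', hd', hd''⟩ := coeff_rename_ne_zero _ _ _ hd
      rw [← hf (a.symm i) hd'', ← hd', Finsupp.weight_apply, Finsupp.weight_apply,
        Finsupp.sum_mapDomain_index (by simp) (by intro s m n; simp [add_mul])]
      simp)
    (fun i => hD _) (fun s => hw _)
    (by
      rw [a.symm.sum_comp (fun j => wcost l i (D j)), b.symm.sum_comp (fun j => wcost l i (w j))]
      exact hlt)
  refine ⟨fun s => x (b s), fun h0 => hx0 ?_, fun i => ?_⟩
  · funext t
    have := congrFun h0 (b.symm t)
    simpa using this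
  · have h1 := hx (a i)
    rw [eval_rename, Equiv.symm_apply_apply] at h1
    exact h1

end ZC
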