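import Mathlib

/-!
# Power series with coefficients in a finite subextension

`FC κ Fl`: the power series over `Fl` with coefficients in a finite subextension of `Fl / κ`.
-/

set_option autoImplicit false

namespace ZC

universe u

/-- the power series with coefficients in a finite subextension -/
def FC (κ Fl : Type u) [Field κ] [Field Fl] [Algebra κ Fl] : Subring (PowerSeries Fl) where
  carrier := {x | ∃ E : IntermediateField κ Fl, FiniteDimensional κ E ∧
    ∀ n, PowerSeries.coeff n x ∈ E}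
  mul_mem' := by
    rintro x y ⟨E, hE, hx⟩ ⟨E', hE', hy⟩
    refine ⟨E ⊔ E', inferInstance, fun n => ?_⟩
    rw [PowerSeries.coeff_mul]
    exact sum_mem fun q _ => mul_mem ((le_sup_left : E ≤ E ⊔ E') (hx _))
      ((le_sup_right : E' ≤ E ⊔ E') (hy _))
  one_mem' := ⟨⊥, inferInstance, fun n => by
    rw [PowerSeries.coeff_one]
    split_ifs
    · exact one_mem _
    · exact zero_mem _⟩
  add_mem' := by
    rintro x y ⟨E, hE, hx⟩ ⟨E', hE', hy⟩
    refine ⟨E ⊔ E', inferInstance, fun n => ?_⟩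
    rw [map_add]
    exact add_mem ((le_sup_left : E ≤ E ⊔ E') (hx _)) ((le_sup_right : E' ≤ E ⊔ E') (hy _))
  zero_mem' := ⟨⊥, inferInstance, fun n => by
    rw [map_zero]
    exact zero_mem _⟩
  neg_mem' := by
    rintro x ⟨E, hE, hx⟩
    refine ⟨E, hE, fun n => ?_⟩
    rw [map_neg]
    exact neg_mem (hx n)

section

variable (κ Fl : Type u) [Field κ] [Field Fl] [Algebra κ Fl]

theorem mem_FC_map (x : PowerSeries κ) : x.map (algebraMap κ Fl) ∈ FC κ Fl :=
  ⟨⊥, inferInstance, fun n => by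
    rw [PowerSeries.coeff_map]
    exact IntermediateField.algebraMap_mem _ _⟩

theorem mem_FC_C [Algebra.IsAlgebraic κ Fl] (a : Fl) : PowerSeries.C a ∈ FC κ Fl := by
  refine ⟨IntermediateField.adjoin κ {a},
    IntermediateField.adjoin.finiteDimensional (Algebra.IsIntegral.isIntegral a), fun n => ?_⟩
  rw [PowerSeries.coeff_C]
  split_ifs
  · exact IntermediateField.subset_adjoin _ _ rfl
  · exact zero_mem _

theorem mem_FC_poly [Algebra.IsAlgebraic κ Fl] (P : Polynomial Fl) :
    (P : PowerSeries Fl) ∈ FC κ Fl := by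
  have h1 : (P : PowerSeries Fl) = ∑ j ∈ Finset.range (P.natDegree + 1),
      PowerSeries.C (P.coeff j) * (PowerSeries.X : PowerSeries Fl) ^ j := by
    conv_lhs => rw [P.as_sum_range_C_mul_X_pow]
    rw [← Polynomial.coeToPowerSeries.ringHom_apply, map_sum]
    simp
  rw [h1]
  refine sum_mem fun j _ => mul_mem (mem_FC_C κ Fl _) (pow_mem ?_ _)
  have h2 : (PowerSeries.X : PowerSeries Fl) =
      (PowerSeries.X : PowerSeries κ).map (algebraMap κ Fl) := by
    rw [PowerSeries.map_X]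
  rw [h2]
  exact mem_FC_map κ Fl _

/-- the conclusion of Greenberg's theorem for `FC κ Fl` -/
def Greenberg : Prop :=
  ∀ {ι σ : Type} [Finite ι] [Finite σ] (f : ι → MvPolynomial σ (PowerSeries Fl))
    (_ : ∀ a m, MvPolynomial.coeff m (f a) ∈ FC κ Fl) (x : ℕ → σ → PowerSeries Fl)
    (_ : ∀ i s, x i s ∈ FC κ Fl)
    (_ : ∀ i a, (PowerSeries.X : PowerSeries Fl) ^ i ∣ MvPolynomial.eval (x i) (f a))
    (c : ℕ), ∃ i, c ≤ i ∧ ∃ y : σ → PowerSeries Fl, (∀ s, y s ∈ FC κ Fl) ∧
      (∀ a, MvPolynomial.eval y (f a) = 0) ∧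
      ∀ s, (PowerSeries.X : PowerSeries Fl) ^ c ∣ y s - x i s

end

end ZC
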