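import Mathlib
import Pool.Agent.Helper99.BD.Defs

/-!
# Restriction of scalars for systems homogeneous for any grading

`F` a field, `L` a commutative `F`-algebra.  Unknowns `x s = ∑ q, ζ (s, q) • β s q` in `L` with
`ζ` in `F`; the linear conditions `ℓ a (f a (x)) = 0` are equations in `ζ` homogeneous of the same
degrees.
-/

set_option autoImplicit false

open MvPolynomial

namespace ZC

section

variable {F L Γ σ : Type*} [Field F] [CommRing L] [Algebra F L] [AddCommMonoid Γ]

/-- values of weighted homogeneous polynomials in a graded kind, any grading -/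
theorem monomial_mem' {A : Type*} [CommSemiring A] (p : Γ → A → Prop) (h1 : p 0 1)
    (hmul : ∀ m n a b, p m a → p n b → p (m + n) (a * b)) (w : σ → Γ) (P : σ → A)
    (hP : ∀ s, p (w s) (P s)) (d : σ →₀ ℕ) :
    p (Finsupp.weight w d) (d.prod fun s k => P s ^ k) := by
  classical
  induction d using Finsupp.induction_linear with
  | zero => simpa using h1
  | add d e hd he =>
    rw [map_add, Finsupp.prod_add_index' (fun _ => pow_zero _) (fun _ _ _ => pow_add _ _ _)]
    exact hmul _ _ _ _ hd he
  | single s k =>
    have h2 : (Finsupp.single s k).prod (fun s k => P s ^ k) = P s ^ k :=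
      Finsupp.prod_single_index (pow_zero _)
    rw [Finsupp.weight_single, h2]
    clear h2
    induction k with
    | zero => simpa using h1
    | succ k ih =>
      rw [pow_succ, succ_nsmul]
      exact hmul _ _ _ _ ih (hP s)

theorem eval₂_mem' {R A : Type*} [CommSemiring R] [CommSemiring A] (φ : R →+* A)
    (p : Γ → A → Prop) (h1 : p 0 1)
    (hmul : ∀ m n a b, p m a → p n b → p (m + n) (a * b))
    (h0 : ∀ m, p m 0) (hadd : ∀ m a b, p m a → p m b → p m (a + b))
    (hφ : ∀ r, p 0 (φ r)) (w : σ → Γ) (P : σ → A)
    (hP : ∀ s, p (w s) (P s)) {f : MvPolynomial σ R} {D : Γ} (hf : IsWeightedHomogeneous w f D) :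
    p D (eval₂ φ P f) := by
  classical
  rw [eval₂_eq]
  refine Finset.sum_induction _ (p D) (hadd D) (h0 D) fun d hd => ?_
  have h2 : Finsupp.weight w d = D := hf (mem_support_iff.mp hd)
  rw [← h2]
  have h3 := hmul 0 _ _ _ (hφ (f.coeff d)) (monomial_mem' p h1 hmul w P hP d)
  rw [zero_add] at h3
  exact h3

variable {V : Type*} [Fintype V] (π : V → σ) (β : V → L)

open Classical in
/-- the generic element: `x s = ∑ ζ v • β v`, the sum over the `v` above `s` -/
noncomputable def genElt (s : σ) : MvPolynomial V L :=
  ∑ v ∈ Finset.univ.filter fun v => π v = s, C (β v) * X v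

open Classical in
/-- the element with coordinates `ζ` -/
noncomputable def coordElt (ζ : V → F) (s : σ) : L :=
  ∑ v ∈ Finset.univ.filter fun v => π v = s, ζ v • β v

/-- the system in the coordinates, with coefficients in `L` -/
noncomputable def genSys (f : MvPolynomial σ L) : MvPolynomial V L :=
  eval₂ C (genElt π β) f

theorem genSys_weighted (w : σ → Γ) {f : MvPolynomial σ L} {D : Γ}
    (hf : IsWeightedHomogeneous w f D) :
    IsWeightedHomogeneous (fun v => w (π v)) (genSys π β f) D := by
  classical
  refine eval₂_mem' (C : L →+* MvPolynomial V L)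
    (fun m (P : MvPolynomial V L) => IsWeightedHomogeneous (fun v => w (π v)) P m)
    (isWeightedHomogeneous_one _ _) (fun _ _ _ _ => IsWeightedHomogeneous.mul)
    (fun _ => isWeightedHomogeneous_zero _ _ _) (fun _ _ _ => IsWeightedHomogeneous.add)
    (fun r => isWeightedHomogeneous_C _ r) w _ (fun s => ?_) hf
  refine IsWeightedHomogeneous.sum _ _ _ fun v hv => ?_
  have h1 := (isWeightedHomogeneous_X L (fun v => w (π v)) v).C_mul (β v)
  rwa [(Finset.mem_filter.1 hv).2] at h1

/-- the values of the generic system -/
theorem eval_genSys (f : MvPolynomial σ L) (ζ : V → F) :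
    eval (fun q => algebraMap F L (ζ q)) (genSys π β f) = eval (coordElt π β ζ) f := by
  unfold genSys
  have h1 := eval₂_comp_left (eval fun q => algebraMap F L (ζ q)) C (genElt π β) f
  rw [h1]
  have h2 : (eval fun q => algebraMap F L (ζ q)).comp (C : L →+* MvPolynomial V L) =
      RingHom.id L := by
    ext x
    simp
  rw [h2, eval₂_id]
  congr 1
  congr 1
  funext s
  simp only [Function.comp_apply, genElt, coordElt, map_sum, map_mul, eval_C, eval_X,
    Algebra.smul_def]
  exact Finset.sum_congr rfl fun q _ => mul_comm _ _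

/-- **restriction of scalars** -/
theorem exists_restrict (w : σ → Γ) {f : MvPolynomial σ L} {D : Γ}
    (hf : IsWeightedHomogeneous w f D) (ℓ : L →ₗ[F] F) :
    ∃ g : MvPolynomial V F, IsWeightedHomogeneous (fun v => w (π v)) g D ∧
      ∀ ζ : V → F, eval ζ g = ℓ (eval (coordElt π β ζ) f) := by
  classical
  refine ⟨∑ d ∈ (genSys π β f).support, monomial d (ℓ ((genSys π β f).coeff d)), ?_,
    fun ζ => ?_⟩
  · exact IsWeightedHomogeneous.sum _ _ _ fun d hd => isWeightedHomogeneous_monomial _ _ _
      (genSys_weighted π β w hf (mem_support_iff.mp hd))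
  · rw [← eval_genSys, map_sum, eval_eq (fun q => algebraMap F L (ζ q)), map_sum]
    refine Finset.sum_congr rfl fun d _ => ?_
    rw [eval_monomial]
    have h2 : ∏ q ∈ d.support, (algebraMap F L (ζ q)) ^ d q =
        algebraMap F L (∏ q ∈ d.support, ζ q ^ d q) := by
      rw [map_prod]
      simp only [map_pow]
    rw [h2, mul_comm ((genSys π β f).coeff d), ← Algebra.smul_def, map_smul, smul_eq_mul, mul_comm]
    rfl

/-- a nonzero coordinate gives a nonzero element -/
theorem coordElt_ne_zero {ζ : V → F} {v : V} (hv : ζ v ≠ 0)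
    (hβ : LinearIndependent F fun u : {u : V // π u = π v} => β u) :
    coordElt π β ζ (π v) ≠ 0 := by
  classical
  intro h0
  apply hv
  rw [coordElt, Finset.sum_subtype (p := fun u => π u = π v) _ (fun u => by simp)
    (fun u => ζ u • β u)] at h0
  exact Fintype.linearIndependent_iff.1 hβ (fun u => ζ u) h0 ⟨v, rfl⟩

end

end ZC
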