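import Mathlib
import Pool.Agent.Helper25.BD.ChainDefs
import Pool.Agent.Helper99.BD.Restrict

/-!
# Chain systems over finite extensions

`L / K` finite of degree `m`: `HasZeros D (m * N) (m * th) d (m * E) K` implies
`HasZeros D N th d E L`.
-/

set_option autoImplicit false

open MvPolynomial

namespace ZC

universe u v

section

variable (D N th m : ℕ)

/-- the variable above which a variable of the big system lies -/
def fproj : CVar D (m * N) (m * th) → CVar D N th
  | .inl p => .inl (p.1, (finProdFinEquiv.symm p.2).2)
  | .inr (.inl k) => .inr (.inl k)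
  | .inr (.inr i) => .inr (.inr (finProdFinEquiv.symm i).2)

/-- the coordinate -/
def fcoord {L : Type*} [One L] (b : Fin m → L) : CVar D (m * N) (m * th) → L
  | .inl p => b (finProdFinEquiv.symm p.2).1
  | .inr (.inl _) => 1
  | .inr (.inr i) => b (finProdFinEquiv.symm i).1

variable {D N th m}

theorem wt_fproj (v : CVar D (m * N) (m * th)) : wt (fproj D N th m v) = wt v := by
  rcases v with ⟨k, b⟩ | k | i <;> rfl

theorem lev_fproj (v : CVar D (m * N) (m * th)) : lev (fproj D N th m v) = lev v := by
  rcases v with ⟨k, b⟩ | k | i <;> rfl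

theorem linearIndependent_fcoord {K L : Type*} [Field K] [Field L] [Algebra K L] {b : Fin m → L}
    (hb : LinearIndependent K b) (v : CVar D (m * N) (m * th)) :
    LinearIndependent K fun u : {u // fproj D N th m u = fproj D N th m v} =>
      fcoord D N th m b u := by
  rcases v with ⟨k, c⟩ | k | i
  · have h1 : ∀ u : {u // fproj D N th m u = fproj D N th m (.inl (k, c))},
        ∃ q : Fin m, u.1 = .inl (k, finProdFinEquiv (q, (finProdFinEquiv.symm c).2)) ∧
          fcoord D N th m b u = b q := by
      rintro ⟨⟨k', c'⟩ | k' | i', hu⟩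
      · simp only [fproj, Sum.inl.injEq, Prod.mk.injEq] at hu
        refine ⟨(finProdFinEquiv.symm c').1, ?_, rfl⟩
        simp only [Sum.inl.injEq, Prod.mk.injEq]
        refine ⟨hu.1, ?_⟩
        rw [← hu.2]
        exact (finProdFinEquiv.apply_symm_apply c').symm
      · simp [fproj] at hu
      · simp [fproj] at hu
    choose q hq hq' using h1
    have h2 : (fun u : {u // fproj D N th m u = fproj D N th m (.inl (k, c))} =>
        fcoord D N th m b u) = b ∘ q := funext hq'
    rw [h2]
    refine hb.comp q fun u u' huu => Subtype.ext ?_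
    rw [hq u, hq u', huu]
  · have h1 : ∀ u : {u // fproj D N th m u = fproj D N th m (.inr (.inl k))},
        u.1 = .inr (.inl k) ∧ fcoord D N th m b u = 1 := by
      rintro ⟨⟨k', c'⟩ | k' | i', hu⟩
      · simp [fproj] at hu
      · simp only [fproj, Sum.inr.injEq, Sum.inl.injEq] at hu
        exact ⟨by simp only [hu], rfl⟩
      · simp [fproj] at hu
    have hsub : Subsingleton {u // fproj D N th m u = fproj D N th m (.inr (.inl k))} :=
      ⟨fun u u' => Subtype.ext ((h1 u).1.trans (h1 u').1.symm)⟩
    rw [linearIndependent_subsingleton_index_iff]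
    intro u
    rw [(h1 u).2]
    exact one_ne_zero
  · have h1 : ∀ u : {u // fproj D N th m u = fproj D N th m (.inr (.inr i))},
        ∃ q : Fin m, u.1 = .inr (.inr (finProdFinEquiv (q, (finProdFinEquiv.symm i).2))) ∧
          fcoord D N th m b u = b q := by
      rintro ⟨⟨k', c'⟩ | k' | i', hu⟩
      · simp [fproj] at hu
      · simp [fproj] at hu
      · simp only [fproj, Sum.inr.injEq] at hu
        refine ⟨(finProdFinEquiv.symm i').1, ?_, rfl⟩
        simp only [Sum.inr.injEq]
        rw [← hu]
        exact (finProdFinEquiv.apply_symm_apply i').symm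
    choose q hq hq' using h1
    have h2 : (fun u : {u // fproj D N th m u = fproj D N th m (.inr (.inr i))} =>
        fcoord D N th m b u) = b ∘ q := funext hq'
    rw [h2]
    refine hb.comp q fun u u' huu => Subtype.ext ?_
    rw [hq u, hq u', huu]

/-- **finite extensions** -/
theorem HasZeros.of_finite {K : Type u} {L : Type v} [Field K] [Field L] [Algebra K L]
    [FiniteDimensional K L] {r : ℕ} {d E : Fin r → ℕ}
    (h : HasZeros D (Module.finrank K L * N) (Module.finrank K L * th) d
      (fun a => Module.finrank K L * E a) K) : HasZeros D N th d E L := by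
  classical
  intro g hg
  let b := Module.finBasis K L
  let π := fproj D N th (Module.finrank K L)
  let β := fcoord D N th (Module.finrank K L) b
  have h2 : ∀ (a : Fin r) (j : ℕ) (i : Fin (Module.finrank K L * E a)),
      ∃ G : MvPolynomial (CVar D (Module.finrank K L * N) (Module.finrank K L * th)) K,
        (0 < j → j < d a * (D + 1) → IsWeightedHomogeneous wt G (dg D (d a) j)) ∧
        (0 < j → j < d a * (D + 1) → ∀ ζ, eval ζ G =
          b.repr (eval (coordElt π β ζ) (g a j (finProdFinEquiv.symm i).2))
            (finProdFinEquiv.symm i).1) := by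
    intro a j i
    by_cases hj : 0 < j ∧ j < d a * (D + 1)
    · obtain ⟨G, hG, hG'⟩ := exists_restrict (F := K) π β wt
        (hg a j (finProdFinEquiv.symm i).2 hj.1 hj.2) (b.coord (finProdFinEquiv.symm i).1)
      refine ⟨G, fun _ _ => ?_, fun _ _ ζ => hG' ζ⟩
      have h3 : (fun v => wt (π v)) =
          (wt : CVar D (Module.finrank K L * N) (Module.finrank K L * th) → _) :=
        funext fun v => wt_fproj v
      rwa [h3] at hG
    · exact ⟨0, fun h3 h4 => absurd ⟨h3, h4⟩ hj, fun h3 h4 => absurd ⟨h3, h4⟩ hj⟩
  choose G hG hG' using h2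
  obtain ⟨ζ, hst, hζ⟩ := h G fun a j i h3 h4 => hG a j i h3 h4
  refine ⟨coordElt π β ζ, fun k hk hk' => ?_, fun a j i h3 h4 => ?_⟩
  · obtain ⟨v, hv, hv'⟩ := hst k hk hk'
    exact ⟨π v, (lev_fproj v).trans hv,
      coordElt_ne_zero π β hv' (linearIndependent_fcoord b.linearIndependent v)⟩
  · apply b.repr.injective
    rw [map_zero]
    ext q
    have h5 := hζ a j (finProdFinEquiv (q, i)) h3 h4
    rw [hG' a j _ h3 h4, Equiv.symm_apply_apply] at h5
    exact h5

end

end ZC
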