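import Mathlib
import Pool.Agent.Helper99.BD.Defs

/-!
# Weighted Tsen-Lang: finite extensions

* `WTL.of_finite`: restriction of scalars (Nagata)
* `WTL.of_ringEquiv`
-/

set_option autoImplicit false

open MvPolynomial

namespace ZC

universe u v

/-- **restriction of scalars** -/
theorem WTL.of_finite {l i : ℕ} {K : Type u} {L : Type v} [Field K] [Field L] [Algebra K L]
    [FiniteDimensional K L] (hK : WTL l i K) : WTL l i L := by
  classical
  intro ι σ _ _ D w f hf hD hw hlt
  let m : ℕ := Module.finrank K L
  let b : Module.Basis (Fin m) K L := Module.finBasis K L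
  let w' : σ × Fin m → ℕ := fun q => w q.1
  -- the form in the coordinates
  let G : ι → MvPolynomial (σ × Fin m) L := fun i =>
    aeval (fun s => ∑ j, C (b j) * X (s, j)) (f i)
  have hG : ∀ i, IsWeightedHomogeneous w' (G i) (D i) := by
    intro i
    refine eval₂_mem (algebraMap L (MvPolynomial (σ × Fin m) L))
      (fun n (P : MvPolynomial (σ × Fin m) L) => IsWeightedHomogeneous w' P n)
      (isWeightedHomogeneous_one _ _) (fun _ _ _ _ => IsWeightedHomogeneous.mul)
      (fun _ => isWeightedHomogeneous_zero _ _ _) (fun _ _ _ => IsWeightedHomogeneous.add)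
      (fun r => isWeightedHomogeneous_C w' r) w _ (fun s => ?_) (hf i)
    exact IsWeightedHomogeneous.sum _ _ _ fun j _ =>
      (isWeightedHomogeneous_X L w' (s, j)).C_mul _
  let g : ι × Fin m → MvPolynomial (σ × Fin m) K := fun q =>
    ∑ d ∈ (G q.1).support, monomial d (b.repr ((G q.1).coeff d) q.2)
  have hg : ∀ q, IsWeightedHomogeneous w' (g q) (D q.1) := fun q =>
    IsWeightedHomogeneous.sum _ _ _ fun d hd => isWeightedHomogeneous_monomial _ _ _
      (hG q.1 (mem_support_iff.mp hd))
  have hcard : ∑ q : ι × Fin m, wcost l i (D q.1) < ∑ q : σ × Fin m, wcost l i (w' q) := by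
    rw [Fintype.sum_prod_type, Fintype.sum_prod_type]
    simp only [w', Finset.sum_const, Finset.card_univ, Fintype.card_fin, smul_eq_mul]
    rw [← Finset.mul_sum, ← Finset.mul_sum]
    exact Nat.mul_lt_mul_of_pos_left hlt Module.finrank_pos
  obtain ⟨y, hy0, hy⟩ := hK (ι × Fin m) (σ × Fin m) (fun q => D q.1) w' g hg (fun q => hD q.1)
    (fun q => hw q.1) hcard
  have hval : ∀ i, eval (fun q => algebraMap K L (y q)) (G i) =
      ∑ j, (eval y (g (i, j))) • b j := by
    intro i
    have h1 : ∀ j, eval y (g (i, j)) =
        ∑ d ∈ (G i).support, b.repr ((G i).coeff d) j * ∏ q ∈ d.support, y q ^ d q := by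
      intro j
      simp only [g, map_sum, eval_monomial]
      rfl
    simp only [h1, Finset.sum_smul]
    rw [Finset.sum_comm, eval_eq]
    refine Finset.sum_congr rfl fun d _ => ?_
    have h2 : ∏ q ∈ d.support, (algebraMap K L (y q)) ^ d q =
        algebraMap K L (∏ q ∈ d.support, y q ^ d q) := by
      rw [map_prod]
      simp only [map_pow]
    rw [h2]
    conv_lhs => rw [← b.sum_repr ((G i).coeff d), Finset.sum_mul]
    refine Finset.sum_congr rfl fun j _ => ?_
    rw [mul_comm, ← Algebra.smul_def, smul_smul, mul_comm]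
  refine ⟨fun s => ∑ j, y (s, j) • b j, fun h => hy0 ?_, fun i => ?_⟩
  · funext ⟨s, j⟩
    have h1 := congrFun h s
    exact Fintype.linearIndependent_iff.mp b.linearIndependent _ h1 j
  · have h1 : eval (fun q => algebraMap K L (y q)) (G i) = 0 := by
      rw [hval i]
      exact Finset.sum_eq_zero fun j _ => by rw [hy (i, j), zero_smul]
    rw [← h1]
    simp only [G]
    rw [aeval_def, ← coe_eval₂Hom]
    have h2 := eval₂_comp_left (eval fun q => algebraMap K L (y q))
      (algebraMap L (MvPolynomial (σ × Fin m) L))
      (fun s => ∑ j, C (b j) * X (s, j)) (f i)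
    rw [coe_eval₂Hom, h2]
    have h3 : (eval fun q => algebraMap K L (y q)).comp
        (algebraMap L (MvPolynomial (σ × Fin m) L)) = RingHom.id L := by
      ext x
      simp
    rw [h3, eval₂_id]
    congr 1
    congr 1
    funext s
    simp only [Function.comp_apply, map_sum, map_mul, eval_C, eval_X, Algebra.smul_def]
    exact Finset.sum_congr rfl fun j _ => mul_comm _ _

/-- `WTL` is invariant under isomorphisms -/
theorem WTL.of_ringEquiv {l i : ℕ} {K : Type u} {L : Type v} [Field K] [Field L] (e : K ≃+* L)
    (h : WTL l i K) : WTL l i L := by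
  let _ : Algebra K L := e.toRingHom.toAlgebra
  have : FiniteDimensional K L := by
    have h1 : Function.Surjective (algebraMap K L) := e.surjective
    exact Module.Finite.of_surjective (Algebra.linearMap K L) h1
  exact h.of_finite

end ZC
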