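import Mathlib
import Pool.Agent.Helper99.BD.Nagata

/-!
# Composita

* `galois_base_change`: a compositum of `L` with a finite Galois extension is a finite Galois
  extension, whose degree divides the old degree
* `WTLup.of_finite`: finite extensions
-/

set_option autoImplicit false

open MvPolynomial

namespace ZC

universe u v

section

variable {F K L E : Type*} [Field F] [Field K] [Field L] [Field E] [Algebra F K] [Algebra F L]
  [Algebra F E] [Algebra K E] [Algebra L E] [IsScalarTower F K E] [IsScalarTower F L E]
  [IsGalois F K] [FiniteDimensional F K]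

theorem galois_base_change
    (h : IntermediateField.adjoin L (Set.range (algebraMap K E)) = ⊤) :
    FiniteDimensional L E ∧ IsGalois L E ∧ Module.finrank L E ∣ Module.finrank F K := by
  classical
  obtain ⟨T, hT₁, hT₂⟩ := IsGalois.is_separable_splitting_field F K
  let T' := T.map (algebraMap F L)
  rw [isSplittingField_iff_intermediateField] at hT₂
  have hT' : T'.IsSplittingField L E := by
    rw [isSplittingField_iff_intermediateField]
    constructor
    · have h1 : T'.map (algebraMap L E) = (T.map (algebraMap F K)).map (algebraMap K E) := by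
        rw [Polynomial.map_map, Polynomial.map_map, ← IsScalarTower.algebraMap_eq,
          ← IsScalarTower.algebraMap_eq]
      rw [h1]
      exact hT₂.1.map _
    · rw [eq_top_iff, ← h, IntermediateField.adjoin_le_iff]
      rintro _ ⟨x, rfl⟩
      have hx : x ∈ IntermediateField.adjoin F (T.rootSet K) := by
        rw [hT₂.2]
        trivial
      have h2 : IsScalarTower.toAlgHom F K E x ∈
          (IntermediateField.adjoin F (T.rootSet K)).map (IsScalarTower.toAlgHom F K E) :=
        ⟨x, hx, rfl⟩
      rw [IntermediateField.adjoin_map] at h2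
      have h3 : IntermediateField.adjoin F (IsScalarTower.toAlgHom F K E '' T.rootSet K) ≤
          (IntermediateField.adjoin L (T'.rootSet E)).restrictScalars F := by
        rw [IntermediateField.adjoin_le_iff]
        rintro _ ⟨y, hy, rfl⟩
        refine IntermediateField.subset_adjoin L _ ?_
        rw [Polynomial.mem_rootSet'] at hy ⊢
        have h4 : T'.map (algebraMap L E) ≠ 0 := by
          have h5 : T ≠ 0 := hT₁.ne_zero
          have h6 : T' ≠ 0 := Polynomial.map_ne_zero h5
          exact Polynomial.map_ne_zero h6
        refine ⟨h4, ?_⟩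
        rw [Polynomial.aeval_map_algebraMap, IsScalarTower.coe_toAlgHom',
          Polynomial.aeval_algebraMap_apply, hy.2, map_zero]
      exact h3 h2
  have hfin : FiniteDimensional L E := Polynomial.IsSplittingField.finiteDimensional E T'
  have hgal : IsGalois L E := IsGalois.of_separable_splitting_field (p := T') hT₁.map
  refine ⟨hfin, hgal, ?_⟩
  rw [← IsGalois.card_aut_eq_finrank L E, ← IsGalois.card_aut_eq_finrank F K]
  refine Subgroup.card_dvd_of_injective
    (IntermediateField.restrictRestrictAlgEquivMapHom F K L E) ?_
  refine (injective_iff_map_eq_one _).mpr fun φ hφ => ?_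
  have hfix : ∀ x : K, φ (algebraMap K E x) = algebraMap K E x := by
    intro x
    have h1 := AlgEquiv.restrictNormal_commutes
      (MulSemiringAction.toAlgAut Gal(E/L) F E φ) K x
    have h2 : (MulSemiringAction.toAlgAut Gal(E/L) F E φ).restrictNormal K = 1 := hφ
    rw [h2] at h1
    exact h1.symm
  ext x
  have hx : x ∈ IntermediateField.adjoin L (Set.range (algebraMap K E)) := by
    rw [h]
    trivial
  induction hx using IntermediateField.adjoin_induction with
  | mem x hx =>
    obtain ⟨y, rfl⟩ := hx
    exact hfix y
  | algebraMap x => simp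
  | add x y _ _ hx hy => rw [map_add, hx, hy, map_add]
  | inv x _ hx => rw [map_inv₀, hx, map_inv₀]
  | mul x y _ _ hx hy => rw [map_mul, hx, hy, map_mul]

end

theorem PrimeTo.isAlgebraic {l : ℕ} {K : Type u} {M : Type v} [Field K] [Field M] [Algebra K M]
    (h : PrimeTo l K M) : Algebra.IsAlgebraic K M := by
  refine ⟨fun x => ?_⟩
  obtain ⟨E, hE, hfin, -, -⟩ := h {x}
  have h1 : IsAlgebraic K (⟨x, hE (by simp)⟩ : E) := Algebra.IsAlgebraic.isAlgebraic _
  exact h1.algebraMap (A := M)

/-- base change: `M'` is generated over `L` by the union `M` of finite Galois extensions of `K` -/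
theorem PrimeTo.base_change {l : ℕ} {K M L M' : Type*} [Field K] [Field M] [Field L] [Field M']
    [Algebra K M] [Algebra K L] [Algebra K M'] [Algebra M M'] [Algebra L M']
    [IsScalarTower K M M'] [IsScalarTower K L M'] (hM : PrimeTo l K M)
    (htop : IntermediateField.adjoin L (Set.range (algebraMap M M')) = ⊤) : PrimeTo l L M' := by
  classical
  intro s
  have h1 : ∀ x : M', ∃ T : Finset M,
      x ∈ IntermediateField.adjoin L (algebraMap M M' '' (T : Set M)) := by
    intro x
    have hx : x ∈ IntermediateField.adjoin L (Set.range (algebraMap M M')) := by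
      rw [htop]
      trivial
    obtain ⟨T, hT, hx⟩ := IntermediateField.exists_finset_of_mem_adjoin hx
    rw [← Set.image_univ] at hT
    obtain ⟨T', -, hT'⟩ := Finset.subset_set_image_iff.1 hT
    refine ⟨T', ?_⟩
    rw [← Finset.coe_image, hT']
    exact hx
  choose T hT using h1
  obtain ⟨E, hE, hfin, hgal, hcop⟩ := hM (s.biUnion T)
  let P : IntermediateField L M' := IntermediateField.adjoin L (algebraMap M M' '' (E : Set M))
  have hEP : ∀ x : E, algebraMap M M' x ∈ P := fun x =>
    IntermediateField.subset_adjoin _ _ ⟨x, x.2, rfl⟩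
  let ψ : E →+* P :=
    { toFun := fun x => ⟨algebraMap M M' x, hEP x⟩
      map_one' := by ext; simp
      map_mul' := fun x y => by ext; simp
      map_zero' := by ext; simp
      map_add' := fun x y => by ext; simp }
  let _ : Algebra E P := ψ.toAlgebra
  have t1 : IsScalarTower K E P := by
    refine IsScalarTower.of_algebraMap_eq fun x => ?_
    apply Subtype.ext
    change algebraMap K M' x = algebraMap M M' (algebraMap K M x)
    rw [← IsScalarTower.algebraMap_apply]
  have htop' : IntermediateField.adjoin L (Set.range (algebraMap E P)) = ⊤ := by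
    rw [← IntermediateField.lift_inj, IntermediateField.lift_adjoin, IntermediateField.lift_top]
    have h3 : (Subtype.val '' (Set.range (algebraMap E P))) =
        algebraMap M M' '' (E : Set M) := by
      ext y
      constructor
      · rintro ⟨_, ⟨x, rfl⟩, rfl⟩
        exact ⟨x, x.2, rfl⟩
      · rintro ⟨x, hx, rfl⟩
        exact ⟨_, ⟨⟨x, hx⟩, rfl⟩, rfl⟩
    rw [h3]
  obtain ⟨q1, q2, q3⟩ := galois_base_change (F := K) (K := E) (L := L) (E := P) htop'
  refine ⟨P, fun x hx => ?_, q1, q2, hcop.coprime_dvd_left q3⟩
  have h5 : IntermediateField.adjoin L (algebraMap M M' '' ((T x : Finset M) : Set M)) ≤ P := by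
    refine IntermediateField.adjoin.mono _ _ _ (Set.image_mono fun y hy => ?_)
    exact hE (by
      rw [Finset.mem_coe, Finset.mem_biUnion]
      exact ⟨x, hx, hy⟩)
  exact h5 (hT x)

/-- a finite extension of a field with `WTL` inside a larger field -/
theorem WTL.of_adjoin {l i : ℕ} {M Ω : Type*} [Field M] [Field Ω] [Algebra M Ω] (h : WTL l i M)
    {S : Set Ω} [Finite S] (hS : ∀ x ∈ S, IsIntegral M x) (N : Subfield Ω)
    (hN : N = Subfield.closure (Set.range (algebraMap M Ω) ∪ S)) : WTL l i N := by
  have h1 := IntermediateField.finiteDimensional_adjoin (K := M) hS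
  have h2 : WTL l i (IntermediateField.adjoin M S) := h.of_finite
  have h3 : ∀ x, x ∈ IntermediateField.adjoin M S ↔ x ∈ N := by
    intro x
    rw [hN, ← IntermediateField.adjoin_toSubfield]
    rfl
  let e : IntermediateField.adjoin M S ≃+* N :=
    { toFun := fun x => ⟨x.1, (h3 _).1 x.2⟩
      invFun := fun x => ⟨x.1, (h3 _).2 x.2⟩
      left_inv := fun _ => rfl
      right_inv := fun _ => rfl
      map_mul' := fun _ _ => rfl
      map_add' := fun _ _ => rfl }
  exact h2.of_ringEquiv e

/-- **finite extensions** -/
theorem WTLup.of_finite {l : ℕ} {K L : Type u} [Field K] [Field L] [Algebra K L]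
    [FiniteDimensional K L] (h : WTLup l K) : WTLup l L := by
  classical
  obtain ⟨M, _, _, hM, hW⟩ := h
  have halg := hM.isAlgebraic
  let Ω := AlgebraicClosure L
  let φ : M →ₐ[K] Ω := IsAlgClosed.lift
  let _ : Algebra M Ω := φ.toRingHom.toAlgebra
  have hφ : IsScalarTower K M Ω := IsScalarTower.of_algebraMap_eq' φ.comp_algebraMap.symm
  let N : IntermediateField L Ω := IntermediateField.adjoin L (Set.range φ)
  have hN0 : ∀ x : M, φ x ∈ N := fun x => IntermediateField.subset_adjoin _ _ ⟨x, rfl⟩
  let φN : M →+* N :=
    { toFun := fun x => ⟨φ x, hN0 x⟩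
      map_one' := by ext; simp
      map_mul' := fun x y => by ext; simp
      map_zero' := by ext; simp
      map_add' := fun x y => by ext; simp }
  let _ : Algebra M N := φN.toAlgebra
  have hφN : IsScalarTower K M N := by
    refine IsScalarTower.of_algebraMap_eq fun x => ?_
    apply Subtype.ext
    change algebraMap K Ω x = φ (algebraMap K M x)
    rw [φ.commutes]
  refine ⟨N, inferInstance, inferInstance, ?_, ?_⟩
  · refine hM.base_change (M := M) ?_
    rw [← IntermediateField.lift_inj, IntermediateField.lift_adjoin, IntermediateField.lift_top]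
    have h3 : (Subtype.val '' (Set.range (algebraMap M N))) = Set.range φ := by
      ext y
      constructor
      · rintro ⟨_, ⟨x, rfl⟩, rfl⟩
        exact ⟨x, rfl⟩
      · rintro ⟨x, rfl⟩
        exact ⟨_, ⟨x, rfl⟩, rfl⟩
    rw [h3]
  · -- restriction of scalars
    let b := Module.finBasis K L
    have hN : N.toSubfield = Subfield.closure (Set.range (algebraMap M Ω) ∪
        Set.range fun j => algebraMap L Ω (b j)) := by
      apply le_antisymm
      · change Subfield.closure (Set.range (algebraMap L Ω) ∪ Set.range φ) ≤ _
        rw [Subfield.closure_le]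
        rintro x (⟨y, rfl⟩ | hx)
        · have h1 : algebraMap L Ω y =
              ∑ j, algebraMap M Ω (algebraMap K M (b.repr y j)) * algebraMap L Ω (b j) := by
            conv_lhs => rw [← b.sum_repr y]
            rw [map_sum]
            refine Finset.sum_congr rfl fun j _ => ?_
            rw [Algebra.smul_def, map_mul, ← IsScalarTower.algebraMap_apply,
              ← IsScalarTower.algebraMap_apply]
          rw [h1]
          exact Subfield.sum_mem _ fun j _ => Subfield.mul_mem _
            (Subfield.subset_closure (Or.inl ⟨_, rfl⟩))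
            (Subfield.subset_closure (Or.inr ⟨j, rfl⟩))
        · exact Subfield.subset_closure (Or.inl hx)
      · rw [Subfield.closure_le]
        rintro x (hx | ⟨j, rfl⟩)
        · exact IntermediateField.subset_adjoin L _ hx
        · exact N.algebraMap_mem _
    refine WTL.of_adjoin hW (S := Set.range fun j => algebraMap L Ω (b j)) ?_ N.toSubfield hN
    rintro _ ⟨j, rfl⟩
    have h1 : IsIntegral K (algebraMap L Ω (b j)) :=
      (Algebra.IsIntegral.isIntegral (R := K) (b j)).algebraMap
    exact h1.tower_top

end ZC
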