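import Mathlib
import Pool.Agent.Helper25.BD.ChainDefs
import Pool.Agent.Helper99.BD.ChainFinite
import Pool.Agent.Helper99.BD.Comp

/-!
# Chain systems up to extensions of degree prime to `l`

* `PrimeTo.exists_compositum`: a compositum of a finite extension and of a union of finite Galois
  extensions of degree prime to `l`
* `ChainUp.of_finite`, `ChainUp.of_ringEquiv`
-/

set_option autoImplicit false

open MvPolynomial

namespace ZC

universe u v

/-- **compositum** -/
theorem PrimeTo.exists_compositum {l : ℕ} {K L M : Type u} [Field K] [Field L] [Field M]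
    [Algebra K L] [FiniteDimensional K L] [Algebra K M] (hM : PrimeTo l K M) :
    ∃ (N : Type u) (_ : Field N) (_ : Algebra L N) (_ : Algebra M N),
      FiniteDimensional M N ∧ PrimeTo l L N := by
  classical
  have halg := hM.isAlgebraic
  let Ω := AlgebraicClosure L
  let φ : M →ₐ[K] Ω := IsAlgClosed.lift
  let _ : Algebra M Ω := φ.toRingHom.toAlgebra
  have hφ : IsScalarTower K M Ω := IsScalarTower.of_algebraMap_eq' φ.comp_algebraMap.symm
  let N : IntermediateField L Ω := IntermediateField.adjoin L (Set.range φ)
  have hN0 : ∀ x : M, φ x ∈ N := fun x => IntermediateField.subset_adjoin _ _ ⟨x, rfl⟩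
  let φN : M →+* N :=
    { toFun := fun x => ⟨φ x, hN0 x⟩
      map_one' := by ext; simp
      map_mul' := fun x y => by ext; simp
      map_zero' := by ext; simp
      map_add' := fun x y => by ext; simp }
  let _ : Algebra M N := φN.toAlgebra
  have hφN : IsScalarTower K M N := by
    refine IsScalarTower.of_algebraMap_eq fun x => ?_
    apply Subtype.ext
    change algebraMap K Ω x = φ (algebraMap K M x)
    rw [φ.commutes]
  refine ⟨N, inferInstance, inferInstance, inferInstance, ?_, ?_⟩
  · let b := Module.finBasis K L
    let S : Set Ω := Set.range fun j => algebraMap L Ω (b j)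
    have hS : ∀ x ∈ S, IsIntegral M x := by
      rintro _ ⟨j, rfl⟩
      have h1 : IsIntegral K (algebraMap L Ω (b j)) :=
        (Algebra.IsIntegral.isIntegral (R := K) (b j)).algebraMap
      exact h1.tower_top
    have hfin := IntermediateField.finiteDimensional_adjoin (K := M) hS
    have hN : N.toSubfield = Subfield.closure (Set.range (algebraMap M Ω) ∪ S) := by
      apply le_antisymm
      · change Subfield.closure (Set.range (algebraMap L Ω) ∪ Set.range φ) ≤ _
        rw [Subfield.closure_le]
        rintro x (⟨y, rfl⟩ | hx)
        · have h1 : algebraMap L Ω y =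
              ∑ j, algebraMap M Ω (algebraMap K M (b.repr y j)) * algebraMap L Ω (b j) := by
            conv_lhs => rw [← b.sum_repr y]
            rw [map_sum]
            refine Finset.sum_congr rfl fun j _ => ?_
            rw [Algebra.smul_def, map_mul, ← IsScalarTower.algebraMap_apply,
              ← IsScalarTower.algebraMap_apply]
          rw [h1]
          exact Subfield.sum_mem _ fun j _ => Subfield.mul_mem _
            (Subfield.subset_closure (Or.inl ⟨_, rfl⟩))
            (Subfield.subset_closure (Or.inr ⟨j, rfl⟩))
        · exact Subfield.subset_closure (Or.inl hx)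
      · rw [Subfield.closure_le]
        rintro x (hx | ⟨j, rfl⟩)
        · exact IntermediateField.subset_adjoin L _ hx
        · exact N.algebraMap_mem _
    have h3 : ∀ x, x ∈ IntermediateField.adjoin M S ↔ x ∈ N := by
      intro x
      have h4 : x ∈ N ↔ x ∈ N.toSubfield := Iff.rfl
      rw [h4, hN, ← IntermediateField.adjoin_toSubfield]
      rfl
    let e : IntermediateField.adjoin M S →ₗ[M] N :=
      { toFun := fun x => ⟨x.1, (h3 _).1 x.2⟩
        map_add' := fun _ _ => rfl
        map_smul' := fun c x => by
          apply Subtype.ext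
          change c • x.1 = φ c * x.1
          rw [Algebra.smul_def]
          rfl }
    refine Module.Finite.of_surjective e fun x => ⟨⟨x.1, (h3 _).2 x.2⟩, rfl⟩
  · refine hM.base_change (M := M) ?_
    rw [← IntermediateField.lift_inj, IntermediateField.lift_adjoin, IntermediateField.lift_top]
    have h3 : (Subtype.val '' (Set.range (algebraMap M N))) = Set.range φ := by
      ext y
      constructor
      · rintro ⟨_, ⟨x, rfl⟩, rfl⟩
        exact ⟨x, rfl⟩
      · rintro ⟨x, rfl⟩
        exact ⟨_, ⟨x, rfl⟩, rfl⟩
    rw [h3]

/-- over a union of extensions of degree prime to `l` the systems of all restrictions of scalars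
of chain systems have stable zeros -/
def ChainUp (l n : ℕ) {r : ℕ} (d : Fin r → ℕ) (K : Type u) [Field K] : Prop :=
  ∃ D, 2 ≤ D ∧ ∃ (M : Type u) (_ : Field M) (_ : Algebra K M), PrimeTo l K M ∧
    ∀ m, 0 < m → HasZeros D (m * (n + 1)) m d (fun _ => m) M

/-- level `0` -/
def ChainZero (n : ℕ) {r : ℕ} (d : Fin r → ℕ) (F : Type u) [Field F] : Prop :=
  ∃ D, 2 ≤ D ∧ ∀ m c, 0 < m → ∃ S,
    HasZeros D (m * (n + 1) * (S + 1)) (m * (S + 1)) d (fun a => m * (d a * S + c)) F

/-- **finite extensions** -/
theorem ChainUp.of_finite {l n r : ℕ} {d : Fin r → ℕ} {K L : Type u} [Field K] [Field L]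
    [Algebra K L] [FiniteDimensional K L] (h : ChainUp l n d K) : ChainUp l n d L := by
  obtain ⟨D, hD, M, _, _, hM, hZ⟩ := h
  obtain ⟨N, _, _, _, hfin, hN⟩ := hM.exists_compositum (L := L)
  refine ⟨D, hD, N, inferInstance, inferInstance, hN, fun m hm => ?_⟩
  have hpos : 0 < Module.finrank M N := Module.finrank_pos
  refine HasZeros.of_finite (K := M) ?_
  rw [← mul_assoc]
  exact hZ (Module.finrank M N * m) (Nat.mul_pos hpos hm)

/-- `ChainUp` is invariant under isomorphisms -/
theorem ChainUp.of_ringEquiv {l n r : ℕ} {d : Fin r → ℕ} {K L : Type u} [Field K] [Field L]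
    (e : K ≃+* L) (h : ChainUp l n d K) : ChainUp l n d L := by
  let _ : Algebra K L := e.toRingHom.toAlgebra
  have : FiniteDimensional K L := by
    have h1 : Function.Surjective (algebraMap K L) := e.surjective
    exact Module.Finite.of_surjective (Algebra.linearMap K L) h1
  exact h.of_finite

end ZC
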