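import Mathlib
import Pool.Agent.Helper99.BD.Defs

/-!
# Weighted Tsen-Lang: from `K` to `K(t)`

`WTL l i K` implies `WTL l (i + 1) (K(t))`: a variable of weight `w` is replaced by the generic
polynomial of degree `w * S`, whose coefficients have weight `w`.
-/

set_option autoImplicit false

open MvPolynomial

namespace ZC

universe u v

section poly

variable {F : Type u} {σ : Type} [Field F]

/-- all coefficients are weighted homogeneous of weight `d` -/
def WCoeff {τ : Type*} (w : τ → ℕ) (d : ℕ) (P : Polynomial (MvPolynomial τ F)) : Prop :=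
  ∀ k, IsWeightedHomogeneous w (P.coeff k) d

lemma WCoeff.zero {τ : Type*} (w : τ → ℕ) (d : ℕ) :
    WCoeff w d (0 : Polynomial (MvPolynomial τ F)) := by
  intro k
  rw [Polynomial.coeff_zero]
  exact isWeightedHomogeneous_zero _ _ _

lemma WCoeff.add {τ : Type*} {w : τ → ℕ} {d : ℕ} {P Q : Polynomial (MvPolynomial τ F)}
    (h : WCoeff w d P) (h' : WCoeff w d Q) : WCoeff w d (P + Q) := by
  intro k
  rw [Polynomial.coeff_add]
  exact (h k).add (h' k)

lemma WCoeff.sum {τ κ : Type*} {w : τ → ℕ} {d : ℕ} (s : Finset κ)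
    (P : κ → Polynomial (MvPolynomial τ F))
    (h : ∀ i ∈ s, WCoeff w d (P i)) : WCoeff w d (∑ i ∈ s, P i) :=
  Finset.sum_induction _ (WCoeff w d) (fun _ _ => WCoeff.add) (WCoeff.zero w d) h

lemma WCoeff.mul {τ : Type*} {w : τ → ℕ} {d e : ℕ} {P Q : Polynomial (MvPolynomial τ F)}
    (h : WCoeff w d P) (h' : WCoeff w e Q) : WCoeff w (d + e) (P * Q) := by
  intro k
  rw [Polynomial.coeff_mul]
  exact IsWeightedHomogeneous.sum _ _ _ fun i _ => (h _).mul (h' _)

lemma WCoeff.one {τ : Type*} (w : τ → ℕ) :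
    WCoeff w 0 (1 : Polynomial (MvPolynomial τ F)) := by
  intro k
  rw [Polynomial.coeff_one]
  split_ifs
  · exact isWeightedHomogeneous_one _ _
  · exact isWeightedHomogeneous_zero _ _ _

lemma WCoeff.const {τ : Type*} (w : τ → ℕ) (p : Polynomial F) :
    WCoeff w 0 (p.map (C : F →+* MvPolynomial τ F)) := by
  intro k
  rw [Polynomial.coeff_map]
  exact isWeightedHomogeneous_C _ _

/-- the index type of the coefficients of the generic polynomials of degrees `w s * S` -/
abbrev GIdx (w : σ → ℕ) (S : ℕ) : Type := Σ s : σ, Fin (w s * S + 1)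

/-- the generic polynomial of degree `≤ w s * S` -/
noncomputable def wgen (w : σ → ℕ) (S : ℕ) (s : σ) :
    Polynomial (MvPolynomial (GIdx w S) F) :=
  ∑ l : Fin (w s * S + 1), Polynomial.C (X ⟨s, l⟩) * Polynomial.X ^ (l : ℕ)

lemma wcoeff_wgen (w : σ → ℕ) (S : ℕ) (s : σ) :
    WCoeff (fun q : GIdx w S => w q.1) (w s) (wgen (F := F) w S s) := by
  refine WCoeff.sum _ _ fun l _ => ?_
  intro k
  rw [Polynomial.coeff_C_mul_X_pow]
  split_ifs
  · exact isWeightedHomogeneous_X F (fun q : GIdx w S => w q.1) ⟨s, l⟩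
  · exact isWeightedHomogeneous_zero _ _ _

lemma natDegree_wgen (w : σ → ℕ) (S : ℕ) (s : σ) :
    (wgen (F := F) w S s).natDegree ≤ w s * S := by
  refine Polynomial.natDegree_sum_le_of_forall_le _ _ fun l _ => ?_
  exact (Polynomial.natDegree_C_mul_X_pow_le _ _).trans (Nat.lt_succ_iff.mp l.2)

/-- the value of a polynomial with polynomial coefficients at the generic polynomials -/
noncomputable def wsubst (w : σ → ℕ) (S : ℕ) (f : MvPolynomial σ (Polynomial F)) :
    Polynomial (MvPolynomial (GIdx w S) F) :=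
  eval₂ (Polynomial.mapRingHom (C : F →+* MvPolynomial (GIdx w S) F)) (wgen w S) f

lemma wcoeff_wsubst (w : σ → ℕ) (S : ℕ) {f : MvPolynomial σ (Polynomial F)} {D : ℕ}
    (hf : IsWeightedHomogeneous w f D) :
    WCoeff (fun q : GIdx w S => w q.1) D (wsubst w S f) := by
  refine eval₂_mem _ (WCoeff (fun q : GIdx w S => w q.1)) (WCoeff.one _)
    (fun _ _ _ _ => WCoeff.mul) (fun m => WCoeff.zero _ m) (fun _ _ _ => WCoeff.add)
    (fun r => ?_) w _ (wcoeff_wgen w S) hf
  rw [Polynomial.coe_mapRingHom]
  exact WCoeff.const _ _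

lemma natDegree_wsubst (w : σ → ℕ) (S : ℕ) {f : MvPolynomial σ (Polynomial F)} {D : ℕ}
    (hf : IsWeightedHomogeneous w f D) (h : ℕ)
    (hh : ∀ d ∈ f.support, (f.coeff d).natDegree ≤ h) :
    (wsubst w S f).natDegree ≤ D * S + h := by
  unfold wsubst
  rw [eval₂_eq]
  refine Polynomial.natDegree_sum_le_of_forall_le _ _ fun d hd => ?_
  refine Polynomial.natDegree_mul_le.trans ?_
  rw [add_comm]
  refine Nat.add_le_add ?_ ?_
  · have h1 := monomial_mem
      (fun m (Q : Polynomial (MvPolynomial (GIdx w S) F)) => Q.natDegree ≤ m * S)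
      (by simp)
      (fun m n a b ha hb => by
        rw [add_mul]
        exact Polynomial.natDegree_mul_le.trans (Nat.add_le_add ha hb))
      w (wgen w S) (natDegree_wgen w S) d
    rw [hf (mem_support_iff.mp hd)] at h1
    exact h1
  · rw [Polynomial.coe_mapRingHom]
    exact Polynomial.natDegree_map_le.trans (hh d hd)

/-- the special value -/
lemma map_wsubst (w : σ → ℕ) (S : ℕ) (f : MvPolynomial σ (Polynomial F)) (a : GIdx w S → F) :
    (wsubst w S f).map (eval a) =
      eval (fun s => ∑ l : Fin (w s * S + 1), Polynomial.C (a ⟨s, l⟩) * Polynomial.X ^ (l : ℕ))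
        f := by
  unfold wsubst
  rw [← Polynomial.coe_mapRingHom, hom_eval₂]
  have h1 : ((Polynomial.mapRingHom (eval a)).comp
      (Polynomial.mapRingHom (C : F →+* MvPolynomial (GIdx w S) F))) = RingHom.id _ := by
    ext x
    · simp
    · simp
  rw [h1]
  rw [eval, eval₂Hom]
  congr 1
  funext s
  simp [wgen]

/-- systems over `F[t]` -/
theorem exists_zero_wpoly {l i : ℕ} (hl : 0 < l) (hF : WTL l i F) [Fintype σ] {ι : Type}
    [Fintype ι] (D : ι → ℕ) (w : σ → ℕ) (f : ι → MvPolynomial σ (Polynomial F))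
    (hf : ∀ a, IsWeightedHomogeneous w (f a) (D a)) (hD : ∀ a, 0 < D a) (hw : ∀ s, 0 < w s)
    (hlt : ∑ a, wcost l (i + 1) (D a) < ∑ s, wcost l (i + 1) (w s)) :
    ∃ x : σ → Polynomial F, x ≠ 0 ∧ ∀ a, eval x (f a) = 0 := by
  classical
  -- a bound for the degrees of the coefficients
  obtain ⟨h, hh⟩ : ∃ h : ℕ, ∀ i, ∀ d ∈ (f i).support, ((f i).coeff d).natDegree ≤ h := by
    refine ⟨∑ i, ∑ d ∈ (f i).support, ((f i).coeff d).natDegree, fun i d hd => ?_⟩
    exact (Finset.single_le_sum (f := fun d => ((f i).coeff d).natDegree)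
      (fun _ _ => Nat.zero_le _) hd).trans
      (Finset.single_le_sum (f := fun i => ∑ d ∈ (f i).support, ((f i).coeff d).natDegree)
        (fun _ _ => Nat.zero_le _) (Finset.mem_univ i))
  set S : ℕ := (h + 1) * ∑ a, wcost l i (D a) with hS
  let G : (Σ a : ι, Fin (D a * S + h + 1)) → MvPolynomial (GIdx w S) F := fun q =>
    (wsubst w S (f q.1)).coeff q.2
  have hG : ∀ q, IsWeightedHomogeneous (fun q : GIdx w S => w q.1) (G q) (D q.1) :=
    fun q => wcoeff_wsubst w S (hf q.1) _
  have hsum : ∑ q : (Σ a : ι, Fin (D a * S + h + 1)), wcost l i (D q.1) <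
      ∑ q : GIdx w S, wcost l i (w q.1) := by
    have h1 : ∑ q : (Σ a : ι, Fin (D a * S + h + 1)), wcost l i (D q.1) =
        (∑ a, wcost l (i + 1) (D a) + 1) * S := by
      calc ∑ q : (Σ a : ι, Fin (D a * S + h + 1)), wcost l i (D q.1)
          = ∑ a, (D a * S + h + 1) * wcost l i (D a) := by
            rw [Fintype.sum_sigma]
            refine Finset.sum_congr rfl fun i _ => ?_
            simp
        _ = (∑ a, wcost l (i + 1) (D a)) * S + (h + 1) * ∑ a, wcost l i (D a) := by
            rw [Finset.sum_mul, Finset.mul_sum, ← Finset.sum_add_distrib]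
            refine Finset.sum_congr rfl fun i _ => ?_
            rw [wcost_succ]
            ring
        _ = (∑ a, wcost l (i + 1) (D a) + 1) * S := by
            rw [← hS]
            ring
    have h2 : ∑ q : GIdx w S, wcost l i (w q.1) =
        (∑ s, wcost l (i + 1) (w s)) * S + ∑ s, wcost l i (w s) := by
      calc ∑ q : GIdx w S, wcost l i (w q.1)
          = ∑ s, (w s * S + 1) * wcost l i (w s) := by
            rw [Fintype.sum_sigma]
            refine Finset.sum_congr rfl fun i _ => ?_
            simp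
        _ = (∑ s, wcost l (i + 1) (w s)) * S + ∑ s, wcost l i (w s) := by
            rw [Finset.sum_mul, ← Finset.sum_add_distrib]
            refine Finset.sum_congr rfl fun i _ => ?_
            rw [wcost_succ]
            ring
    rw [h1, h2]
    have h3 : (∑ a, wcost l (i + 1) (D a) + 1) * S ≤ (∑ s, wcost l (i + 1) (w s)) * S :=
      Nat.mul_le_mul_right _ hlt
    have h4 : 0 < ∑ s, wcost l i (w s) := by
      obtain ⟨s, -, -⟩ : ∃ s ∈ (Finset.univ : Finset σ), 0 < wcost l (i + 1) (w s) := by
        by_contra hcon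
        push Not at hcon
        have : ∑ s, wcost l (i + 1) (w s) = 0 :=
          Finset.sum_eq_zero fun s hs => Nat.le_zero.mp (hcon s hs)
        omega
      exact (wcost_pos hl i (hw s)).trans_le
        (Finset.single_le_sum (f := fun s => wcost l i (w s)) (fun _ _ => Nat.zero_le _)
          (Finset.mem_univ s))
    omega
  obtain ⟨a, ha0, ha⟩ := hF _ _ (fun q : (Σ a : ι, Fin (D a * S + h + 1)) => D q.1)
    (fun q : GIdx w S => w q.1) G hG (fun q => hD _) (fun q => hw _) hsum
  refine ⟨fun s => ∑ l : Fin (w s * S + 1), Polynomial.C (a ⟨s, l⟩) * Polynomial.X ^ (l : ℕ),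
    ?_, ?_⟩
  · intro hx
    apply ha0
    funext ⟨s, l⟩
    have h1 := congrArg (fun P : Polynomial F => P.coeff l) (congrFun hx s)
    simp only [Polynomial.finsetSum_coeff, Polynomial.coeff_C_mul_X_pow, Pi.zero_apply,
      Polynomial.coeff_zero] at h1
    rw [Finset.sum_eq_single l] at h1
    · simpa using h1
    · intro l' _ hl'
      rw [if_neg fun h => hl' (Fin.ext h.symm)]
    · intro h
      exact absurd (Finset.mem_univ _) h
  · intro b
    rw [← map_wsubst]
    ext k
    rw [Polynomial.coeff_map, Polynomial.coeff_zero]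
    by_cases hk : k < D b * S + h + 1
    · exact ha ⟨b, ⟨k, hk⟩⟩
    · rw [Polynomial.coeff_eq_zero_of_natDegree_lt, map_zero]
      have := natDegree_wsubst w S (hf b) h (hh b)
      omega

/-- clearing denominators -/
theorem WTL.of_integers {R : Type*} [CommRing R] [IsDomain R] (K : Type v) [Field K] [Algebra R K]
    [IsFractionRing R K] {l i : ℕ}
    (h : ∀ (ι σ : Type) [Fintype ι] [Fintype σ] (D : ι → ℕ) (w : σ → ℕ) (f : ι → MvPolynomial σ R),
      (∀ a, IsWeightedHomogeneous w (f a) (D a)) → (∀ a, 0 < D a) → (∀ s, 0 < w s) →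
      ∑ a, wcost l i (D a) < ∑ s, wcost l i (w s) →
      ∃ x : σ → R, x ≠ 0 ∧ ∀ a, eval x (f a) = 0) : WTL l i K := by
  classical
  intro ι σ _ _ D w f hf hD hw hlt
  have h1 : ∀ a, ∃ (b : R) (g : MvPolynomial σ R), b ≠ 0 ∧
      IsWeightedHomogeneous w g (D a) ∧ map (algebraMap R K) g =
        C (algebraMap R K b) * f a := by
    intro a
    obtain ⟨b, hb⟩ := IsLocalization.exist_integer_multiples_of_finset
      (nonZeroDivisors R) (Finset.image (fun d => (f a).coeff d) (f a).support)
    have h2 : ∀ d, ∃ c : R, algebraMap R K c = algebraMap R K b * (f a).coeff d := by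
      intro d
      by_cases hd : d ∈ (f a).support
      · obtain ⟨c, hc⟩ := hb _ (Finset.mem_image_of_mem _ hd)
        exact ⟨c, by rw [hc, Algebra.smul_def]⟩
      · exact ⟨0, by rw [map_zero, notMem_support_iff.mp hd, mul_zero]⟩
    choose c hc using h2
    refine ⟨b, ∑ d ∈ (f a).support, monomial d (c d), nonZeroDivisors.coe_ne_zero b, ?_, ?_⟩
    · refine IsWeightedHomogeneous.sum _ _ _ fun d hd => isWeightedHomogeneous_monomial _ _ _ ?_
      exact hf a (mem_support_iff.mp hd)
    · rw [map_sum]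
      simp only [map_monomial, hc]
      conv_rhs => rw [(f a).as_sum, Finset.mul_sum]
      refine Finset.sum_congr rfl fun d _ => ?_
      rw [C_mul_monomial]
  choose b g hb hg hgf using h1
  obtain ⟨x, hx0, hx⟩ := h ι σ D w g hg hD hw hlt
  refine ⟨fun s => algebraMap R K (x s), fun h => hx0 ?_, fun i => ?_⟩
  · funext s
    have := congrFun h s
    exact IsFractionRing.injective R K (by rw [this]; simp)
  · have h3 : eval (fun s => algebraMap R K (x s)) (map (algebraMap R K) (g i)) = 0 := by
      rw [eval_map]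
      have h4 := eval₂_comp_left (algebraMap R K) (RingHom.id _) x (g i)
      rw [eval₂_id, hx i, map_zero, RingHom.comp_id] at h4
      exact h4.symm
    rw [hgf, map_mul, eval_C] at h3
    rcases mul_eq_zero.mp h3 with h | h
    · exact absurd (IsFractionRing.injective R K (by rw [h, map_zero])) (hb i)
    · exact h

/-- **weighted Tsen-Lang**: the field of rational functions -/
theorem WTL.fractionRing {l i : ℕ} (hl : 0 < l) (hF : WTL l i F) (K : Type v) [Field K]
    [Algebra (Polynomial F) K] [IsFractionRing (Polynomial F) K] : WTL l (i + 1) K :=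
  WTL.of_integers (R := Polynomial F) K fun _ _ _ _ D w f hf hD hw hlt =>
    exists_zero_wpoly hl hF D w f hf hD hw hlt

end poly

end ZC
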