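import Mathlib
import Pool.Agent.Helper99.BD.Tsen

/-!
# Weighted Tsen-Lang: approximate zeros over power series

`exists_wapprox`: a weighted system over `F[[t]]` has, for every `N`, a zero modulo `t ^ N` with
polynomial coordinates, which is primitive in the weighted sense.
-/

set_option autoImplicit false

open MvPolynomial

namespace ZC

universe u v

section

variable {F : Type u} [Field F] {σ : Type}

/-- the truncation of a polynomial over the power series -/
noncomputable def mtrunc (K : ℕ) (f : MvPolynomial σ (PowerSeries F)) :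
    MvPolynomial σ (Polynomial F) :=
  ∑ d ∈ f.support, monomial d ((f.coeff d).trunc K)

lemma mtrunc_weighted (K : ℕ) {w : σ → ℕ} {f : MvPolynomial σ (PowerSeries F)} {D : ℕ}
    (hf : IsWeightedHomogeneous w f D) : IsWeightedHomogeneous w (mtrunc K f) D :=
  IsWeightedHomogeneous.sum _ _ _ fun _ hd => isWeightedHomogeneous_monomial _ _ _
    (hf (mem_support_iff.mp hd))

lemma coe_trunc_sub (K : ℕ) (c : PowerSeries F) :
    (PowerSeries.X : PowerSeries F) ^ K ∣ c - (c.trunc K : PowerSeries F) := by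
  rw [PowerSeries.X_pow_dvd_iff]
  intro m hm
  rw [map_sub, Polynomial.coeff_coe, PowerSeries.coeff_trunc, if_pos hm, sub_self]

/-- the values of a polynomial and of its truncation -/
lemma eval_sub_mtrunc (K : ℕ) (f : MvPolynomial σ (PowerSeries F)) (x : σ → Polynomial F) :
    (PowerSeries.X : PowerSeries F) ^ K ∣ eval (fun s => (x s : PowerSeries F)) f -
      (eval x (mtrunc K f) : Polynomial F) := by
  have h1 : ((eval x (mtrunc K f) : Polynomial F) : PowerSeries F) =
      ∑ d ∈ f.support, ((f.coeff d).trunc K : PowerSeries F) *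
        ∏ s ∈ d.support, (x s : PowerSeries F) ^ d s := by
    rw [← Polynomial.coeToPowerSeries.ringHom_apply, mtrunc, map_sum, map_sum]
    refine Finset.sum_congr rfl fun d _ => ?_
    rw [eval_monomial, map_mul, Finsupp.prod, map_prod]
    simp only [map_pow, Polynomial.coeToPowerSeries.ringHom_apply]
  rw [h1, eval_eq, ← Finset.sum_sub_distrib]
  refine Finset.dvd_sum fun d _ => ?_
  rw [← sub_mul]
  exact (coe_trunc_sub K _).mul_right _

/-- the greatest power -/
lemma exists_primitive [Nonempty σ] {w : σ → ℕ} (S : ℕ) {x : σ → Polynomial F}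
    (hx : x ≠ 0) (hdeg : ∀ s, (x s).natDegree ≤ w s * S) (hw : ∀ s, 0 < w s) :
    ∃ (q : ℕ) (x' : σ → Polynomial F), q ≤ S ∧ (∀ s, x s = Polynomial.X ^ (q * w s) * x' s) ∧
      ∃ s, ¬ (Polynomial.X : Polynomial F) ^ w s ∣ x' s := by
  classical
  have hex : ∃ q, ¬ ∀ s, (Polynomial.X : Polynomial F) ^ (q * w s) ∣ x s := by
    refine ⟨S + 1, fun h => hx ?_⟩
    funext s
    by_contra hs
    have h1 := Polynomial.natDegree_le_of_dvd (h s) hs
    rw [Polynomial.natDegree_X_pow] at h1
    have h2 := hdeg s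
    have h3 := hw s
    have h4 : (S + 1) * w s = w s * S + w s := by ring
    omega
  obtain ⟨q', hq', hmin⟩ : ∃ q', (¬ ∀ s, (Polynomial.X : Polynomial F) ^ (q' * w s) ∣ x s) ∧
      ∀ q < q', ∀ s, (Polynomial.X : Polynomial F) ^ (q * w s) ∣ x s := by
    refine ⟨Nat.find hex, Nat.find_spec hex, fun q hq => ?_⟩
    have := Nat.find_min hex hq
    push Not at this
    exact this
  have hq0 : 0 < q' := by
    rcases Nat.eq_zero_or_pos q' with h | h
    · exfalso
      apply hq'
      intro s
      rw [h, zero_mul, pow_zero]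
      exact one_dvd _
    · exact h
  have h1 := hmin (q' - 1) (by omega)
  choose x' hx' using h1
  refine ⟨q' - 1, x', ?_, hx', ?_⟩
  · obtain ⟨s, hs⟩ : ∃ s, x s ≠ 0 := by
      by_contra hcon
      push Not at hcon
      exact hx (funext hcon)
    have h2 := Polynomial.natDegree_le_of_dvd (Dvd.intro _ (hx' s).symm) hs
    rw [Polynomial.natDegree_X_pow] at h2
    have h3 := hdeg s
    have h4 : (q' - 1) * w s ≤ S * w s := by
      rw [mul_comm S]
      exact h2.trans h3
    exact Nat.le_of_mul_le_mul_right h4 (hw s)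
  · push Not at hq'
    obtain ⟨s, hs⟩ := hq'
    refine ⟨s, fun ⟨y, hy⟩ => hs ?_⟩
    rw [hx' s, hy, ← mul_assoc, ← pow_add]
    have h5 : (q' - 1) * w s + w s = q' * w s := by
      rw [← Nat.succ_mul, Nat.succ_eq_add_one, Nat.sub_add_cancel hq0]
    rw [h5]
    exact Dvd.intro _ rfl

/-- **approximate zeros** -/
theorem exists_wapprox {l i : ℕ} (hl : 0 < l) (hF : WTL l i F) [Fintype σ] {ι : Type}
    [Fintype ι] (D : ι → ℕ) (w : σ → ℕ) (f : ι → MvPolynomial σ (PowerSeries F))
    (hf : ∀ a, IsWeightedHomogeneous w (f a) (D a)) (hD : ∀ a, 0 < D a) (hw : ∀ s, 0 < w s)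
    (hlt : ∑ a, wcost l (i + 1) (D a) < ∑ s, wcost l (i + 1) (w s)) (N : ℕ) :
    ∃ x : σ → Polynomial F, (∃ s, ¬ (Polynomial.X : Polynomial F) ^ w s ∣ x s) ∧
      ∀ a, (PowerSeries.X : PowerSeries F) ^ N ∣ eval (fun s => (x s : PowerSeries F)) (f a) := by
  classical
  set S : ℕ := N * ∑ a, wcost l i (D a) with hS
  let K : ι → ℕ := fun a => D a * S + N
  let G : (Σ a : ι, Fin (D a * S + N)) → MvPolynomial (GIdx w S) F := fun q =>
    (wsubst w S (mtrunc (K q.1) (f q.1))).coeff q.2
  have hG : ∀ q, IsWeightedHomogeneous (fun q : GIdx w S => w q.1) (G q) (D q.1) :=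
    fun q => wcoeff_wsubst w S (mtrunc_weighted _ (hf q.1)) _
  have h4 : 0 < ∑ s, wcost l i (w s) ∧ Nonempty σ := by
    obtain ⟨s, -, -⟩ : ∃ s ∈ (Finset.univ : Finset σ), 0 < wcost l (i + 1) (w s) := by
      by_contra hcon
      push Not at hcon
      have : ∑ s, wcost l (i + 1) (w s) = 0 :=
        Finset.sum_eq_zero fun s hs => Nat.le_zero.mp (hcon s hs)
      omega
    exact ⟨(wcost_pos hl i (hw s)).trans_le
      (Finset.single_le_sum (f := fun s => wcost l i (w s)) (fun _ _ => Nat.zero_le _)
        (Finset.mem_univ s)), ⟨s⟩⟩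
  have hne := h4.2
  have hsum : ∑ q : (Σ a : ι, Fin (D a * S + N)), wcost l i (D q.1) <
      ∑ q : GIdx w S, wcost l i (w q.1) := by
    have h1 : ∑ q : (Σ a : ι, Fin (D a * S + N)), wcost l i (D q.1) =
        (∑ a, wcost l (i + 1) (D a) + 1) * S := by
      calc ∑ q : (Σ a : ι, Fin (D a * S + N)), wcost l i (D q.1)
          = ∑ a, (D a * S + N) * wcost l i (D a) := by
            rw [Fintype.sum_sigma]
            refine Finset.sum_congr rfl fun i _ => ?_
            simp
        _ = (∑ a, wcost l (i + 1) (D a)) * S + N * ∑ a, wcost l i (D a) := by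
            rw [Finset.sum_mul, Finset.mul_sum, ← Finset.sum_add_distrib]
            refine Finset.sum_congr rfl fun i _ => ?_
            rw [wcost_succ]
            ring
        _ = (∑ a, wcost l (i + 1) (D a) + 1) * S := by
            rw [← hS]
            ring
    have h2 : ∑ q : GIdx w S, wcost l i (w q.1) =
        (∑ s, wcost l (i + 1) (w s)) * S + ∑ s, wcost l i (w s) := by
      calc ∑ q : GIdx w S, wcost l i (w q.1)
          = ∑ s, (w s * S + 1) * wcost l i (w s) := by
            rw [Fintype.sum_sigma]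
            refine Finset.sum_congr rfl fun i _ => ?_
            simp
        _ = (∑ s, wcost l (i + 1) (w s)) * S + ∑ s, wcost l i (w s) := by
            rw [Finset.sum_mul, ← Finset.sum_add_distrib]
            refine Finset.sum_congr rfl fun i _ => ?_
            rw [wcost_succ]
            ring
    rw [h1, h2]
    have h3 : (∑ a, wcost l (i + 1) (D a) + 1) * S ≤ (∑ s, wcost l (i + 1) (w s)) * S :=
      Nat.mul_le_mul_right _ hlt
    have := h4.1
    omega
  obtain ⟨a, ha0, ha⟩ := hF _ _ (fun q : (Σ a : ι, Fin (D a * S + N)) => D q.1)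
    (fun q : GIdx w S => w q.1) G hG (fun q => hD _) (fun q => hw _) hsum
  let x : σ → Polynomial F := fun s =>
    ∑ l : Fin (w s * S + 1), Polynomial.C (a ⟨s, l⟩) * Polynomial.X ^ (l : ℕ)
  have hx0 : x ≠ 0 := by
    intro hx
    apply ha0
    funext ⟨s, l⟩
    have h1 := congrArg (fun P : Polynomial F => P.coeff l) (congrFun hx s)
    simp only [x, Polynomial.finsetSum_coeff, Polynomial.coeff_C_mul_X_pow, Pi.zero_apply,
      Polynomial.coeff_zero] at h1
    rw [Finset.sum_eq_single l] at h1
    · simpa using h1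
    · intro l' _ hl'
      rw [if_neg fun h => hl' (Fin.ext h.symm)]
    · intro h
      exact absurd (Finset.mem_univ _) h
  have hxdeg : ∀ s, (x s).natDegree ≤ w s * S := by
    intro s
    refine Polynomial.natDegree_sum_le_of_forall_le _ _ fun l _ => ?_
    exact (Polynomial.natDegree_C_mul_X_pow_le _ _).trans (Nat.lt_succ_iff.mp l.2)
  -- the values
  have hval : ∀ b, (PowerSeries.X : PowerSeries F) ^ (D b * S + N) ∣
      eval (fun s => (x s : PowerSeries F)) (f b) := by
    intro b
    have h1 : (Polynomial.X : Polynomial F) ^ (D b * S + N) ∣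
        eval x (mtrunc (K b) (f b)) := by
      rw [Polynomial.X_pow_dvd_iff]
      intro k hk
      have h2 := map_wsubst w S (mtrunc (K b) (f b)) a
      rw [← h2, Polynomial.coeff_map]
      exact ha ⟨b, ⟨k, hk⟩⟩
    have h2 : (PowerSeries.X : PowerSeries F) ^ (D b * S + N) ∣
        ((eval x (mtrunc (K b) (f b)) : Polynomial F) : PowerSeries F) := by
      obtain ⟨y, hy⟩ := h1
      refine ⟨(y : PowerSeries F), ?_⟩
      rw [hy, Polynomial.coe_mul, Polynomial.coe_pow, Polynomial.coe_X]
    have h3 := eval_sub_mtrunc (K b) (f b) x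
    exact (dvd_iff_dvd_of_dvd_sub h3).2 h2
  obtain ⟨q, x', hq, hx', hs⟩ := exists_primitive S hx0 hxdeg hw
  refine ⟨x', hs, fun b => ?_⟩
  have h5 : eval (fun s => (x s : PowerSeries F)) (f b) =
      (PowerSeries.X ^ q) ^ D b * eval (fun s => (x' s : PowerSeries F)) (f b) := by
    rw [← eval_weighted_smul (hf b)]
    congr 2
    funext s
    rw [hx' s, Polynomial.coe_mul, Polynomial.coe_pow, Polynomial.coe_X, ← pow_mul]
  have h6 := hval b
  rw [h5] at h6
  obtain ⟨p, hp⟩ : ∃ p, D b * S + N = q * D b + (N + p) := by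
    refine ⟨D b * S - q * D b, ?_⟩
    have : q * D b ≤ D b * S := by
      rw [mul_comm]
      exact Nat.mul_le_mul_left _ hq
    omega
  rw [hp, pow_add, ← pow_mul] at h6
  have h7 := (mul_dvd_mul_iff_left (pow_ne_zero _ PowerSeries.X_ne_zero)).1 h6
  rw [pow_add] at h7
  exact (Dvd.intro _ rfl).trans h7

end

end ZC
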