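import Mathlib
import Pool.Agent.Helper72.ZC.Defs
import Pool.Agent.Helper99.BD.Tsen
import Pool.Agent.Helper99.BD.Comp

/-!
# Weighted Tsen-Lang: function fields of one variable
-/

set_option autoImplicit false

open MvPolynomial

namespace ZC

universe u v

theorem wtlup_ratFunc {l : ℕ} (hl : 0 < l) {F Fl : Type u} [Field F] [Field Fl] [Algebra F Fl]
    (h : PrimeTo l F Fl) (hW : WTL l 0 Fl) : WTLup l (RatFunc F) := by
  let ρ : Polynomial F →+* RatFunc Fl :=
    (algebraMap (Polynomial Fl) (RatFunc Fl)).comp (Polynomial.mapRingHom (algebraMap F Fl))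
  have hρ : Function.Injective ρ :=
    (IsFractionRing.injective (Polynomial Fl) (RatFunc Fl)).comp
      (Polynomial.map_injective _ (algebraMap F Fl).injective)
  let φ : RatFunc F →+* RatFunc Fl := IsFractionRing.lift (A := Polynomial F) hρ
  have hφ : ∀ p : Polynomial F, φ (algebraMap (Polynomial F) (RatFunc F) p) = ρ p := fun p =>
    IsFractionRing.lift_algebraMap hρ p
  let _ : Algebra (RatFunc F) (RatFunc Fl) := φ.toAlgebra
  have t1 : IsScalarTower F (RatFunc F) (RatFunc Fl) := by
    refine IsScalarTower.of_algebraMap_eq fun x => ?_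
    change algebraMap F (RatFunc Fl) x = φ (algebraMap F (RatFunc F) x)
    rw [IsScalarTower.algebraMap_apply F (Polynomial F) (RatFunc F), hφ]
    change _ = algebraMap (Polynomial Fl) (RatFunc Fl)
      ((Polynomial.C x : Polynomial F).map (algebraMap F Fl))
    rw [Polynomial.map_C, ← Polynomial.algebraMap_eq, ← IsScalarTower.algebraMap_apply,
      ← IsScalarTower.algebraMap_apply]
  refine ⟨RatFunc Fl, inferInstance, inferInstance, ?_, ?_⟩
  · refine h.base_change (M := Fl) ?_
    rw [eq_top_iff]
    intro x _
    have hpoly : ∀ p : Polynomial Fl, algebraMap (Polynomial Fl) (RatFunc Fl) p ∈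
        IntermediateField.adjoin (RatFunc F) (Set.range (algebraMap Fl (RatFunc Fl))) := by
      intro p
      induction p using Polynomial.induction_on' with
      | add p q hp hq =>
        rw [map_add]
        exact add_mem hp hq
      | monomial n a =>
        have h1 : algebraMap (Polynomial Fl) (RatFunc Fl) (Polynomial.monomial n a) =
            algebraMap Fl (RatFunc Fl) a * algebraMap (RatFunc F) (RatFunc Fl)
              (algebraMap (Polynomial F) (RatFunc F) Polynomial.X) ^ n := by
          have h2 : algebraMap (RatFunc F) (RatFunc Fl)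
              (algebraMap (Polynomial F) (RatFunc F) Polynomial.X) =
              algebraMap (Polynomial Fl) (RatFunc Fl) Polynomial.X := by
            change φ _ = _
            rw [hφ]
            simp [ρ]
          rw [h2, ← Polynomial.C_mul_X_pow_eq_monomial, map_mul, map_pow,
            IsScalarTower.algebraMap_apply Fl (Polynomial Fl) (RatFunc Fl),
            Polynomial.algebraMap_eq]
        rw [h1]
        exact mul_mem (IntermediateField.subset_adjoin _ _ ⟨a, rfl⟩)
          (pow_mem (IntermediateField.algebraMap_mem _ _) n)
    obtain ⟨p, q, -, rfl⟩ := IsFractionRing.div_surjective (A := Polynomial Fl) x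
    exact div_mem (hpoly p) (hpoly q)
  · exact WTL.fractionRing hl hW (RatFunc Fl)

/-- `WTLup` is invariant under isomorphisms -/
theorem WTLup.of_ringEquiv {l : ℕ} {K L : Type u} [Field K] [Field L] (e : K ≃+* L)
    (h : WTLup l K) : WTLup l L := by
  let _ : Algebra K L := e.toRingHom.toAlgebra
  have : FiniteDimensional K L := by
    have h1 : Function.Surjective (algebraMap K L) := e.surjective
    exact Module.Finite.of_surjective (Algebra.linearMap K L) h1
  exact h.of_finite

/-- **function fields of one variable** -/
theorem IsCurveField.wtlup {l : ℕ} (hl : 0 < l) {F Fl k : Type u} [Field F] [Field Fl] [Field k]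
    [Algebra F Fl] [Algebra F k] (h : PrimeTo l F Fl) (hW : WTL l 0 Fl)
    (hk : IsCurveField F k) : WTLup l k := by
  obtain ⟨t, ht, hfin⟩ := hk
  have h1 : WTLup l (IntermediateField.adjoin F {t}) :=
    (wtlup_ratFunc hl h hW).of_ringEquiv (RatFunc.algEquivOfTranscendental t ht).toRingEquiv
  exact h1.of_finite

end ZC
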