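import Mathlib
import Pool.Agent.Helper99.BD.FC
import Pool.Agent.Helper99.BD.Approx
import Pool.Agent.Helper99.BD.Comp
import Pool.Agent.Helper99.BD.Global

/-!
# Weighted Tsen-Lang: local fields

`FC κ Fl`: the power series over `Fl` with coefficients in a finite subextension of `Fl / κ`.
The field of fractions of `FC κ Fl` is a union of finite Galois extensions of `κ((t))` of degree
prime to `l` if `Fl` is one of `κ`.
-/

set_option autoImplicit false

open MvPolynomial

namespace ZC

universe u v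

section

variable (κ Fl : Type u) [Field κ] [Field Fl] [Algebra κ Fl]

/-- a power series with coefficients in a finite extension is a combination of constants -/
theorem FC_eq_sum {x : PowerSeries Fl} (hx : x ∈ FC κ Fl) :
    ∃ (m : ℕ) (b : Fin m → Fl) (y : Fin m → PowerSeries κ),
      x = ∑ j, PowerSeries.C (b j) * (y j).map (algebraMap κ Fl) := by
  obtain ⟨E, hE, hx⟩ := hx
  let b := Module.finBasis κ E
  refine ⟨Module.finrank κ E, fun j => b j,
    fun j => PowerSeries.mk fun n => b.repr ⟨PowerSeries.coeff n x, hx n⟩ j, ?_⟩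
  ext n
  rw [map_sum]
  simp only [PowerSeries.coeff_C_mul, PowerSeries.coeff_map, PowerSeries.coeff_mk]
  have h1 := congrArg (algebraMap E Fl) (b.sum_repr ⟨PowerSeries.coeff n x, hx n⟩)
  rw [map_sum] at h1
  refine h1.symm.trans (Finset.sum_congr rfl fun j _ => ?_)
  rw [Algebra.smul_def, map_mul, mul_comm]
  rfl

/-- **the field of fractions of `FC κ Fl`** -/
theorem primeTo_FC [Algebra.IsAlgebraic κ Fl] {l : ℕ} (h : PrimeTo l κ Fl)
    (K : Type u) [Field K] [Algebra (PowerSeries κ) K] [IsFractionRing (PowerSeries κ) K]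
    (M : Type u) [Field M] [Algebra (FC κ Fl) M] [IsFractionRing (FC κ Fl) M] :
    ∃ _ : Algebra K M, PrimeTo l K M := by
  let ρ : PowerSeries κ →+* FC κ Fl :=
    (PowerSeries.map (algebraMap κ Fl)).codRestrict (FC κ Fl) (mem_FC_map κ Fl)
  have hρ : Function.Injective ρ := by
    intro x y hxy
    have h1 : x.map (algebraMap κ Fl) = y.map (algebraMap κ Fl) := congrArg Subtype.val hxy
    exact PowerSeries.map_injective _ (algebraMap κ Fl).injective h1
  let ρM : PowerSeries κ →+* M := (algebraMap (FC κ Fl) M).comp ρ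
  have hρM : Function.Injective ρM := (IsFractionRing.injective (FC κ Fl) M).comp hρ
  let φ : K →+* M := IsFractionRing.lift (A := PowerSeries κ) hρM
  have hφ : ∀ p : PowerSeries κ, φ (algebraMap (PowerSeries κ) K p) = ρM p := fun p =>
    IsFractionRing.lift_algebraMap hρM p
  let γ : Fl →+* FC κ Fl := (PowerSeries.C : Fl →+* PowerSeries Fl).codRestrict (FC κ Fl)
    (mem_FC_C κ Fl)
  let aKM : Algebra K M := φ.toAlgebra
  let aFM : Algebra Fl M := ((algebraMap (FC κ Fl) M).comp γ).toAlgebra
  let aκM : Algebra κ M := ((algebraMap Fl M).comp (algebraMap κ Fl)).toAlgebra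
  let aκK : Algebra κ K := ((algebraMap (PowerSeries κ) K).comp PowerSeries.C).toAlgebra
  have t1 : IsScalarTower κ Fl M := IsScalarTower.of_algebraMap_eq fun x => rfl
  have t2 : IsScalarTower κ K M := by
    refine IsScalarTower.of_algebraMap_eq fun x => ?_
    change algebraMap (FC κ Fl) M (γ (algebraMap κ Fl x)) =
      φ (algebraMap (PowerSeries κ) K (PowerSeries.C x))
    rw [hφ]
    change _ = algebraMap (FC κ Fl) M (ρ (PowerSeries.C x))
    congr 1
    apply Subtype.ext
    change PowerSeries.C (algebraMap κ Fl x) = (PowerSeries.C x).map (algebraMap κ Fl)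
    rw [PowerSeries.map_C]
  refine ⟨aKM, h.base_change (M := Fl) ?_⟩
  rw [eq_top_iff]
  intro x _
  have hps : ∀ p : FC κ Fl, algebraMap (FC κ Fl) M p ∈
      IntermediateField.adjoin K (Set.range (algebraMap Fl M)) := by
    intro p
    obtain ⟨m, b, y, hy⟩ := FC_eq_sum κ Fl p.2
    have h1 : p = ∑ j, γ (b j) * ρ (y j) := by
      apply Subtype.ext
      rw [hy]
      rw [AddSubmonoidClass.coe_finsetSum]
      rfl
    rw [h1, map_sum]
    refine sum_mem fun j _ => ?_
    rw [map_mul]
    refine mul_mem (IntermediateField.subset_adjoin _ _ ⟨b j, rfl⟩) ?_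
    have h2 : algebraMap (FC κ Fl) M (ρ (y j)) =
        algebraMap K M (algebraMap (PowerSeries κ) K (y j)) := (hφ (y j)).symm
    rw [h2]
    exact IntermediateField.algebraMap_mem _ _
  obtain ⟨p, q, -, rfl⟩ := IsFractionRing.div_surjective (A := FC κ Fl) x
  exact div_mem (hps p) (hps q)

theorem wtl_FC [Algebra.IsAlgebraic κ Fl] {l i : ℕ} (hl : 0 < l) (hW : WTL l i Fl)
    (hG : Greenberg κ Fl) (M : Type u) [Field M] [Algebra (FC κ Fl) M]
    [IsFractionRing (FC κ Fl) M] : WTL l (i + 1) M := by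
  refine WTL.of_integers (R := FC κ Fl) M fun ι σ _ _ D w f hf hD hw hlt => ?_
  let f' : ι → MvPolynomial σ (PowerSeries Fl) := fun a => map (FC κ Fl).subtype (f a)
  have hf' : ∀ a, IsWeightedHomogeneous w (f' a) (D a) := by
    intro a d hd
    rw [coeff_map] at hd
    exact hf a fun h0 => hd (by rw [h0, map_zero])
  have happ := exists_wapprox hl hW D w f' hf' hD hw hlt
  choose x hxs hxf using happ
  obtain ⟨j, -, y, hy, hyf, hyx⟩ := hG f' (fun a m => by
      rw [coeff_map]
      exact (coeff m (f a)).2) (fun i s => (x i s : PowerSeries Fl))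
    (fun i s => mem_FC_poly κ Fl _) hxf (∑ s, w s)
  refine ⟨fun s => ⟨y s, hy s⟩, fun h0 => ?_, fun a => ?_⟩
  · obtain ⟨s, hs⟩ := hxs j
    apply hs
    have h1 : y s = 0 := congrArg Subtype.val (congrFun h0 s)
    have h2 := hyx s
    rw [h1, zero_sub, dvd_neg] at h2
    have h3 : w s ≤ ∑ s, w s :=
      Finset.single_le_sum (f := w) (fun _ _ => Nat.zero_le _) (Finset.mem_univ s)
    have h4 := (pow_dvd_pow (PowerSeries.X : PowerSeries Fl) h3).trans h2
    rw [Polynomial.X_pow_dvd_iff]
    rw [PowerSeries.X_pow_dvd_iff] at h4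
    intro n hn
    have h5 := h4 n hn
    rwa [Polynomial.coeff_coe] at h5
  · have h1 := hyf a
    simp only [f'] at h1
    rw [eval_map] at h1
    have h2 := eval₂_comp_left (FC κ Fl).subtype (RingHom.id _)
      (fun s => (⟨y s, hy s⟩ : FC κ Fl)) (f a)
    rw [RingHom.comp_id, eval₂_id] at h2
    apply Subtype.ext
    change (FC κ Fl).subtype (eval (fun s => (⟨y s, hy s⟩ : FC κ Fl)) (f a)) = 0
    rw [h2]
    exact h1

/-- **local fields** -/
theorem wtlup_laurent [Algebra.IsAlgebraic κ Fl] {l : ℕ} (hl : 0 < l) (h : PrimeTo l κ Fl)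
    (hW : WTL l 0 Fl) (hG : Greenberg κ Fl) : WTLup l (LaurentSeries κ) := by
  obtain ⟨a, ha⟩ := primeTo_FC κ Fl h (LaurentSeries κ) (FractionRing (FC κ Fl))
  exact ⟨FractionRing (FC κ Fl), inferInstance, a, ha, wtl_FC κ Fl hl hW hG _⟩

end

end ZC
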