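import Pool.Agent.Helper15.FKS.PrimeField
import Pool.Agent.Helper15.FKS.NormForm
import Pool.Agent.Helper63.BD.PAC
import Pool.Agent.Helper71.BD.PAC
import Pool.Agent.Helper74.BD.Std
import Pool.Agent.Helper99.BD.Defs

/-!
# Weighted systems over the union of the extensions of degree prime to `l` of a finite field
-/

set_option autoImplicit false

open Module

namespace ZC

universe u

/-- elements algebraic over a field whose irreducible polynomials of degree prime to `l` are
linear -/
theorem dvd_finrank_of_closed {l : ℕ} {F : Type u} [Field F]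
    (hF : ∀ g : Polynomial F, Irreducible g → ¬ l ∣ g.natDegree → g.natDegree = 1)
    (E : Type u) [Field E] [Algebra F E] (a : E) (ha : IsAlgebraic F a)
    (har : a ∉ (algebraMap F E).range) : l ∣ finrank F (IntermediateField.adjoin F {a}) := by
  have hint : IsIntegral F a := ha.isIntegral
  rw [IntermediateField.adjoin.finrank hint]
  by_contra hcon
  have h1 := hF _ (minpoly.irreducible hint) hcon
  exact har ((minpoly.natDegree_eq_one_iff).1 h1)

/-- **the fields `F^(l)`** -/
theorem exists_wtl_zero (κ : Type u) [Field κ] [Finite κ] {l : ℕ} (hl : l.Prime) :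
    ∃ (Fl : Type u) (_ : Field Fl) (_ : Algebra κ Fl), PrimeTo l κ Fl ∧
      Algebra.IsAlgebraic κ Fl ∧ WTL l 0 Fl := by
  obtain ⟨Fl, _, _, h1, h2, h3, h4, h5, h6, h7⟩ :=
    Pool.Agent.Helper15.FKS.exists_primeField κ hl
  have : Fact l.Prime := ⟨hl⟩
  refine ⟨Fl, inferInstance, inferInstance, h1, h2, ?_⟩
  refine Std.wtl (BD.std_of_homPAC hl (fun E _ _ a ha har => dvd_finrank_of_closed h6 E a ha har)
    (BD.homPAC_of_plane (planePAC_of_primeClosed hl ⟨h5, h6⟩))) h7

end ZC
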