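import Mathlib
import Pool.Agent.Helper25.BD.ChainDefs
import Pool.Agent.Helper99.BD.Restrict

/-!
# Chain systems over fields of rational functions

`UP D N th d E F` implies `HasZeros D N th d E (F(t))`.
-/

set_option autoImplicit false

open MvPolynomial

namespace ZC

universe u v

/-- the sum of the coordinates of a degree -/
def psum {D : ℕ} (m : Fin D → ℤ) : ℤ := ∑ i, m i

theorem psum_add {D : ℕ} (m n : Fin D → ℤ) : psum (m + n) = psum m + psum n :=
  Finset.sum_add_distrib

theorem psum_smul {D : ℕ} (c : ℤ) (m : Fin D → ℤ) : psum (c • m) = c * psum m := by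
  simp [psum, Finset.mul_sum]

theorem psum_nsmul {D : ℕ} (c : ℕ) (m : Fin D → ℤ) : psum (c • m) = c * psum m := by
  simp [psum, Finset.mul_sum]

theorem psum_sub {D : ℕ} (m n : Fin D → ℤ) : psum (m - n) = psum m - psum n :=
  Finset.sum_sub_distrib _ _

theorem psum_ep {D k : ℕ} : psum (ep D k) = if 1 ≤ k ∧ k ≤ D then 1 else 0 := by
  unfold psum ep
  split_ifs with h
  · rw [Finset.sum_eq_single (⟨k - 1, by omega⟩ : Fin D)]
    · rw [if_pos (by simp only; omega)]
    · intro i _ hi
      rw [if_neg]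
      intro h1
      exact hi (Fin.ext (by simp only; omega))
    · intro h1
      exact absurd (Finset.mem_univ _) h1
  · refine Finset.sum_eq_zero fun i _ => if_neg fun h1 => h ?_
    have := i.2
    omega

theorem psum_ep_nonneg {D k : ℕ} : 0 ≤ psum (ep D k) := by
  rw [psum_ep]
  split_ifs <;> norm_num

theorem psum_ep_le {D k : ℕ} : psum (ep D k) ≤ 1 := by
  rw [psum_ep]
  split_ifs <;> norm_num

theorem psum_al {D k : ℕ} : psum (al D k) = 2 * psum (ep D k) - psum (ep D (k - 1)) -
    psum (ep D (k + 1)) := by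
  unfold al
  rw [psum_sub, psum_sub, psum_nsmul]
  norm_num

/-- the variables which may depend on `t` -/
def gdeg {D N th : ℕ} : CVar D N th → ℕ
  | .inl _ => 1
  | .inr (.inl _) => 0
  | .inr (.inr _) => 1

theorem gdeg_le {D N th : ℕ} (hD : 0 < D) (s : CVar D N th) : (gdeg s : ℤ) ≤ psum (wt s) := by
  rcases s with ⟨k, b⟩ | k | i
  · simp only [gdeg, wt]
    rw [psum_ep, if_pos (by have := k.2; omega)]
    norm_num
  · simp only [gdeg, wt]
    rw [psum_al, psum_ep, if_pos (by have := k.2; omega)]
    have h1 := @psum_ep_le D (k + 1 - 1)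
    have h2 := @psum_ep_le D (k + 1 + 1)
    simp only [Nat.cast_zero]
    linarith
  · simp only [gdeg, wt]
    rw [psum_al, psum_ep, if_pos (by omega)]
    have h1 := @psum_ep_le D (D - 1)
    have h2 : psum (ep D (D + 1)) = 0 := by
      rw [psum_ep, if_neg (by omega)]
    rw [h2]
    push_cast
    omega

theorem psum_dg_le {D d j : ℕ} (hd : 0 < d) : psum (dg D d j) ≤ d := by
  unfold dg
  rw [psum_add, psum_smul, psum_smul]
  have h1 : d * (j / d) ≤ j := Nat.mul_div_le j d
  have h2 : j < d * (j / d + 1) := by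
    have := Nat.lt_mul_div_succ j hd
    exact this
  have h3 := @psum_ep_le D (j / d)
  have h4 := @psum_ep_le D (j / d + 1)
  have h5 : (0 : ℤ) ≤ ((d * (j / d + 1) : ℕ) : ℤ) - (j : ℤ) := by
    have : (j : ℤ) < ((d * (j / d + 1) : ℕ) : ℤ) := by exact_mod_cast h2
    omega
  have h6 : (0 : ℤ) ≤ (j : ℤ) - ((d * (j / d) : ℕ) : ℤ) := by
    have : ((d * (j / d) : ℕ) : ℤ) ≤ (j : ℤ) := by exact_mod_cast h1
    omega
  have h7 := mul_le_mul_of_nonneg_left h3 h5
  have h8 := mul_le_mul_of_nonneg_left h4 h6
  push_cast at h7 h8 ⊢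
  linarith

/-- a monomial of the degree of an equation contains at most `d` variables depending on `t` -/
theorem sum_gdeg_le {D N th d j : ℕ} (hD : 0 < D) (hd : 0 < d) {m : CVar D N th →₀ ℕ}
    (hm : Finsupp.weight wt m = dg D d j) : ∑ s ∈ m.support, m s * gdeg s ≤ d := by
  have h1 : psum (Finsupp.weight wt m) = ∑ s ∈ m.support, (m s : ℤ) * psum (wt s) := by
    rw [Finsupp.weight_apply, Finsupp.sum]
    unfold psum
    simp only [Finset.sum_apply, nsmul_eq_mul, Finset.mul_sum]
    exact Finset.sum_comm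
  have h2 : ∑ s ∈ m.support, (m s : ℤ) * (gdeg s : ℤ) ≤ d := by
    refine le_trans ?_ (psum_dg_le (D := D) (j := j) hd)
    rw [← hm, h1]
    exact Finset.sum_le_sum fun s _ => mul_le_mul_of_nonneg_left (gdeg_le hD s) (by positivity)
  exact_mod_cast h2

section

variable {F : Type u} [Field F] {D N th : ℕ}

/-- the variable above which a variable of the big system lies -/
def gproj (D N th S : ℕ) : CVar D (N * (S + 1)) (th * (S + 1)) → CVar D N th
  | .inl p => .inl (p.1, (finProdFinEquiv.symm p.2).1)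
  | .inr (.inl k) => .inr (.inl k)
  | .inr (.inr i) => .inr (.inr (finProdFinEquiv.symm i).1)

/-- the exponent of `t` -/
def gexp (D N th S : ℕ) : CVar D (N * (S + 1)) (th * (S + 1)) → ℕ
  | .inl p => (finProdFinEquiv.symm p.2).2
  | .inr (.inl _) => 0
  | .inr (.inr i) => (finProdFinEquiv.symm i).2

theorem wt_gproj (S : ℕ) (v : CVar D (N * (S + 1)) (th * (S + 1))) :
    wt (gproj D N th S v) = wt v := by
  rcases v with ⟨k, b⟩ | k | i <;> rfl

theorem lev_gproj (S : ℕ) (v : CVar D (N * (S + 1)) (th * (S + 1))) :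
    lev (gproj D N th S v) = lev v := by
  rcases v with ⟨k, b⟩ | k | i <;> rfl

theorem gexp_le (S : ℕ) (v : CVar D (N * (S + 1)) (th * (S + 1))) :
    gexp D N th S v ≤ S * gdeg (gproj D N th S v) := by
  rcases v with ⟨k, b⟩ | k | i
  · simp only [gexp, gproj, gdeg]
    have := (finProdFinEquiv.symm b).2.2
    omega
  · simp [gexp, gproj, gdeg]
  · simp only [gexp, gproj, gdeg]
    have := (finProdFinEquiv.symm i).2.2
    omega

theorem gexp_inj (S : ℕ) {u v : CVar D (N * (S + 1)) (th * (S + 1))}
    (h : gproj D N th S u = gproj D N th S v) (h' : gexp D N th S u = gexp D N th S v) : u = v := by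
  rcases u with ⟨k, b⟩ | k | i <;> rcases v with ⟨k', b'⟩ | k' | i' <;>
    simp only [gproj, gexp, Sum.inl.injEq, Sum.inr.injEq, Prod.mk.injEq, reduceCtorEq] at h h' ⊢
  · refine ⟨h.1, finProdFinEquiv.symm.injective (Prod.ext h.2 (Fin.ext h'))⟩
  · exact h
  · exact finProdFinEquiv.symm.injective (Prod.ext h (Fin.ext h'))

theorem natDegree_coordElt (S : ℕ) (ζ : CVar D (N * (S + 1)) (th * (S + 1)) → F)
    (s : CVar D N th) :
    (coordElt (gproj D N th S) (fun v => (Polynomial.X : Polynomial F) ^ gexp D N th S v) ζ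
      s).natDegree ≤ S * gdeg s := by
  classical
  unfold coordElt
  refine Polynomial.natDegree_sum_le_of_forall_le _ _ fun v hv => ?_
  have hv' : gproj D N th S v = s := by simpa using hv
  rw [← hv']
  refine (Polynomial.natDegree_smul_le _ _).trans ?_
  rw [Polynomial.natDegree_X_pow]
  exact gexp_le S v

theorem natDegree_eval_le {j d₀ : ℕ} (hD : 0 < D) (hd : 0 < d₀) (S c : ℕ)
    {f : MvPolynomial (CVar D N th) (Polynomial F)} (hf : IsWeightedHomogeneous wt f (dg D d₀ j))
    (hc : ∀ m ∈ f.support, (f.coeff m).natDegree ≤ c) (x : CVar D N th → Polynomial F)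
    (hx : ∀ s, (x s).natDegree ≤ S * gdeg s) : (eval x f).natDegree ≤ d₀ * S + c := by
  classical
  rw [eval_eq]
  refine Polynomial.natDegree_sum_le_of_forall_le _ _ fun m hm => ?_
  refine Polynomial.natDegree_mul_le.trans ?_
  rw [add_comm]
  refine Nat.add_le_add ?_ (hc m hm)
  refine (Polynomial.natDegree_prod_le _ _).trans ?_
  calc ∑ s ∈ m.support, (x s ^ m s).natDegree ≤ ∑ s ∈ m.support, m s * (S * gdeg s) :=
        Finset.sum_le_sum fun s _ =>
          Polynomial.natDegree_pow_le.trans (Nat.mul_le_mul_left _ (hx s))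
    _ = (∑ s ∈ m.support, m s * gdeg s) * S := by
        rw [Finset.sum_mul]
        refine Finset.sum_congr rfl fun s _ => ?_
        ring
    _ ≤ d₀ * S := Nat.mul_le_mul_right _ (sum_gdeg_le hD hd (hf (mem_support_iff.mp hm)))

theorem linearIndependent_gexp (S : ℕ) (v : CVar D (N * (S + 1)) (th * (S + 1))) :
    LinearIndependent F fun u : {u // gproj D N th S u = gproj D N th S v} =>
      (Polynomial.X : Polynomial F) ^ gexp D N th S u := by
  have h1 : LinearIndependent F fun n : ℕ => (Polynomial.X : Polynomial F) ^ n := by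
    have h2 := (Polynomial.basisMonomials F).linearIndependent
    have h3 : (fun n : ℕ => (Polynomial.X : Polynomial F) ^ n) =
        ⇑(Polynomial.basisMonomials F) := by
      funext n
      rw [Polynomial.coe_basisMonomials, Polynomial.X_pow_eq_monomial]
    rw [h3]
    exact h2
  exact h1.comp (fun u : {u // gproj D N th S u = gproj D N th S v} => gexp D N th S u)
    fun u u' huu => Subtype.ext (gexp_inj S (u.2.trans u'.2.symm) huu)

/-- clearing denominators, any grading -/
theorem exists_integers {R : Type*} [CommRing R] [IsDomain R] {K : Type*} [Field K]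
    [Algebra R K] [IsFractionRing R K] {σ Γ : Type*} [AddCommMonoid Γ] (f : MvPolynomial σ K) :
    ∃ (b : R) (g : MvPolynomial σ R), b ≠ 0 ∧ map (algebraMap R K) g = C (algebraMap R K b) * f ∧
      ∀ (w : σ → Γ) (D : Γ), IsWeightedHomogeneous w f D → IsWeightedHomogeneous w g D := by
  classical
  obtain ⟨b, hb⟩ := IsLocalization.exist_integer_multiples_of_finset
    (nonZeroDivisors R) (Finset.image (fun d => f.coeff d) f.support)
  have h2 : ∀ d, ∃ c : R, algebraMap R K c = algebraMap R K b * f.coeff d := by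
    intro d
    by_cases hd : d ∈ f.support
    · obtain ⟨c, hc⟩ := hb _ (Finset.mem_image_of_mem _ hd)
      exact ⟨c, by rw [hc, Algebra.smul_def]⟩
    · exact ⟨0, by rw [map_zero, notMem_support_iff.mp hd, mul_zero]⟩
  choose c hc using h2
  refine ⟨b, ∑ d ∈ f.support, monomial d (c d), nonZeroDivisors.coe_ne_zero b, ?_, ?_⟩
  · rw [map_sum]
    simp only [map_monomial, hc]
    conv_rhs => rw [f.as_sum, Finset.mul_sum]
    refine Finset.sum_congr rfl fun d _ => ?_
    rw [C_mul_monomial]
  · intro w D hf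
    refine IsWeightedHomogeneous.sum _ _ _ fun d hd => isWeightedHomogeneous_monomial _ _ _ ?_
    exact hf (mem_support_iff.mp hd)

theorem eval_algebraMap_eq_zero {R : Type*} [CommRing R] {K : Type*} [Field K] [Algebra R K]
    {σ : Type*} {f : MvPolynomial σ K} {g : MvPolynomial σ R} {b : R}
    (hb : algebraMap R K b ≠ 0) (hg : map (algebraMap R K) g = C (algebraMap R K b) * f)
    {x : σ → R} (hx : eval x g = 0) : eval (fun s => algebraMap R K (x s)) f = 0 := by
  have h3 : eval (fun s => algebraMap R K (x s)) (map (algebraMap R K) g) = 0 := by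
    rw [eval_map]
    have h4 := eval₂_comp_left (algebraMap R K) (RingHom.id _) x g
    rw [eval₂_id, hx, map_zero, RingHom.comp_id] at h4
    exact h4.symm
  rw [hg, map_mul, eval_C] at h3
  exact (mul_eq_zero.mp h3).resolve_left hb

/-- **the field of rational functions** -/
theorem HasZeros.fractionRing {r : ℕ} {d E : Fin r → ℕ} (hD : 0 < D) (h : UP D N th d E F)
    (K : Type v) [Field K] [Algebra (Polynomial F) K] [IsFractionRing (Polynomial F) K] :
    HasZeros D N th d E K := by
  classical
  intro g hg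
  -- clear the denominators
  have h1 := fun (a : Fin r) (j : ℕ) (i : Fin (E a)) =>
    exists_integers (R := Polynomial F) (Γ := Fin D → ℤ) (g a j i)
  choose b g' hb hgg' hw using h1
  -- a bound for the degrees of the coefficients
  let I : Type := Σ a : Fin r, Fin (d a * (D + 1)) × Fin (E a)
  let c : ℕ := ∑ q : I, ∑ m ∈ (g' q.1 q.2.1 q.2.2).support, ((g' q.1 q.2.1 q.2.2).coeff m).natDegree
  have hc : ∀ a j i, j < d a * (D + 1) → ∀ m ∈ (g' a j i).support,
      ((g' a j i).coeff m).natDegree ≤ c := by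
    intro a j i hj m hm
    refine (Finset.single_le_sum (f := fun m => ((g' a j i).coeff m).natDegree)
      (fun _ _ => Nat.zero_le _) hm).trans ?_
    exact Finset.single_le_sum (f := fun q : I => ∑ m ∈ (g' q.1 q.2.1 q.2.2).support,
      ((g' q.1 q.2.1 q.2.2).coeff m).natDegree) (fun _ _ => Nat.zero_le _)
      (Finset.mem_univ (⟨a, ⟨j, hj⟩, i⟩ : I))
  obtain ⟨S, hS⟩ := h (c + 1)
  let π := gproj D N th S
  let β : CVar D (N * (S + 1)) (th * (S + 1)) → Polynomial F := fun v => Polynomial.X ^ gexp D N th S v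
  -- the system over `F`
  have h2 : ∀ (a : Fin r) (j : ℕ) (i : Fin (E a * (d a * S + (c + 1)))),
      ∃ G : MvPolynomial (CVar D (N * (S + 1)) (th * (S + 1))) F,
        (0 < j → j < d a * (D + 1) → IsWeightedHomogeneous wt G (dg D (d a) j)) ∧
        (0 < j → j < d a * (D + 1) → ∀ ζ, eval ζ G =
          (eval (coordElt π β ζ) (g' a j (finProdFinEquiv.symm i).1)).coeff
            (finProdFinEquiv.symm i).2) := by
    intro a j i
    by_cases hj : 0 < j ∧ j < d a * (D + 1)
    · obtain ⟨G, hG, hG'⟩ := exists_restrict (F := F) π β wt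
        (hw a j (finProdFinEquiv.symm i).1 _ _ (hg a j _ hj.1 hj.2))
        (Polynomial.lcoeff F (finProdFinEquiv.symm i).2)
      refine ⟨G, fun _ _ => ?_, fun _ _ ζ => hG' ζ⟩
      have h3 : (fun v => wt (π v)) = (wt : CVar D (N * (S + 1)) (th * (S + 1)) → _) :=
        funext fun v => wt_gproj S v
      rwa [h3] at hG
    · exact ⟨0, fun h3 h4 => absurd ⟨h3, h4⟩ hj, fun h3 h4 => absurd ⟨h3, h4⟩ hj⟩
  choose G hG hG' using h2
  obtain ⟨ζ, hst, hζ⟩ := hS G fun a j i h3 h4 => hG a j i h3 h4
  refine ⟨fun s => algebraMap (Polynomial F) K (coordElt π β ζ s), fun k hk hk' => ?_,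
    fun a j i h3 h4 => ?_⟩
  · obtain ⟨v, hv, hv'⟩ := hst k hk hk'
    refine ⟨π v, (lev_gproj S v).trans hv, fun h0 => ?_⟩
    exact coordElt_ne_zero π β hv' (linearIndependent_gexp S v)
      (IsFractionRing.injective (Polynomial F) K (h0.trans (map_zero _).symm))
  · refine eval_algebraMap_eq_zero (b := b a j i) (fun h0 => hb a j i
      (IsFractionRing.injective (Polynomial F) K (by rw [h0, map_zero]))) (hgg' a j i) ?_
    have hda : 0 < d a := by
      rcases Nat.eq_zero_or_pos (d a) with h0 | h0
      · rw [h0, zero_mul] at h4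
        omega
      · exact h0
    have hdeg : (eval (coordElt π β ζ) (g' a j i)).natDegree ≤ d a * S + c :=
      natDegree_eval_le hD hda S c (hw a j i _ _ (hg a j i h3 h4)) (hc a j i h4) _
        (natDegree_coordElt S ζ)
    ext m
    rw [Polynomial.coeff_zero]
    rcases lt_or_ge m (d a * S + (c + 1)) with hm | hm
    · have h5 := hζ a j (finProdFinEquiv (i, ⟨m, hm⟩)) h3 h4
      rw [hG' a j _ h3 h4, Equiv.symm_apply_apply] at h5
      exact h5
    · exact Polynomial.coeff_eq_zero_of_natDegree_lt (by omega)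

end

end ZC
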