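import Mathlib
import Pool.Agent.Helper72.ZC.Defs
import Pool.Agent.Helper99.BD.ChainUp
import Pool.Agent.Helper99.BD.ChainGlobal

/-!
# Chain systems over function fields of one variable
-/

set_option autoImplicit false

open MvPolynomial

namespace ZC

universe u v

/-- `Fl(X)` over `F(X)` -/
theorem primeTo_ratFunc {l : ℕ} {F Fl : Type u} [Field F] [Field Fl] [Algebra F Fl]
    (h : PrimeTo l F Fl) : ∃ _ : Algebra (RatFunc F) (RatFunc Fl),
      PrimeTo l (RatFunc F) (RatFunc Fl) := by
  let ρ : Polynomial F →+* RatFunc Fl :=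
    (algebraMap (Polynomial Fl) (RatFunc Fl)).comp (Polynomial.mapRingHom (algebraMap F Fl))
  have hρ : Function.Injective ρ :=
    (IsFractionRing.injective (Polynomial Fl) (RatFunc Fl)).comp
      (Polynomial.map_injective _ (algebraMap F Fl).injective)
  let φ : RatFunc F →+* RatFunc Fl := IsFractionRing.lift (A := Polynomial F) hρ
  have hφ : ∀ p : Polynomial F, φ (algebraMap (Polynomial F) (RatFunc F) p) = ρ p := fun p =>
    IsFractionRing.lift_algebraMap hρ p
  let aφ : Algebra (RatFunc F) (RatFunc Fl) := φ.toAlgebra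
  have t1 : IsScalarTower F (RatFunc F) (RatFunc Fl) := by
    refine IsScalarTower.of_algebraMap_eq fun x => ?_
    change algebraMap F (RatFunc Fl) x = φ (algebraMap F (RatFunc F) x)
    rw [IsScalarTower.algebraMap_apply F (Polynomial F) (RatFunc F), hφ]
    change _ = algebraMap (Polynomial Fl) (RatFunc Fl)
      ((Polynomial.C x : Polynomial F).map (algebraMap F Fl))
    rw [Polynomial.map_C, ← Polynomial.algebraMap_eq, ← IsScalarTower.algebraMap_apply,
      ← IsScalarTower.algebraMap_apply]
  refine ⟨aφ, h.base_change (M := Fl) ?_⟩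
  rw [eq_top_iff]
  intro x _
  have hpoly : ∀ p : Polynomial Fl, algebraMap (Polynomial Fl) (RatFunc Fl) p ∈
      IntermediateField.adjoin (RatFunc F) (Set.range (algebraMap Fl (RatFunc Fl))) := by
    intro p
    induction p using Polynomial.induction_on' with
    | add p q hp hq =>
      rw [map_add]
      exact add_mem hp hq
    | monomial n a =>
      have h1 : algebraMap (Polynomial Fl) (RatFunc Fl) (Polynomial.monomial n a) =
          algebraMap Fl (RatFunc Fl) a * algebraMap (RatFunc F) (RatFunc Fl)
            (algebraMap (Polynomial F) (RatFunc F) Polynomial.X) ^ n := by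
        have h2 : algebraMap (RatFunc F) (RatFunc Fl)
            (algebraMap (Polynomial F) (RatFunc F) Polynomial.X) =
            algebraMap (Polynomial Fl) (RatFunc Fl) Polynomial.X := by
          change φ _ = _
          rw [hφ]
          simp [ρ]
        rw [h2, ← Polynomial.C_mul_X_pow_eq_monomial, map_mul, map_pow,
          IsScalarTower.algebraMap_apply Fl (Polynomial Fl) (RatFunc Fl),
          Polynomial.algebraMap_eq]
      rw [h1]
      exact mul_mem (IntermediateField.subset_adjoin _ _ ⟨a, rfl⟩)
        (pow_mem (IntermediateField.algebraMap_mem _ _) n)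
  obtain ⟨p, q, -, rfl⟩ := IsFractionRing.div_surjective (A := Polynomial Fl) x
  exact div_mem (hpoly p) (hpoly q)

/-- **rational functions** -/
theorem chainUp_ratFunc {l n r : ℕ} {d : Fin r → ℕ} {F Fl : Type u} [Field F] [Field Fl]
    [Algebra F Fl] (h : PrimeTo l F Fl) (hz : ChainZero n d Fl) : ChainUp l n d (RatFunc F) := by
  obtain ⟨D, hD, hz⟩ := hz
  obtain ⟨a, ha⟩ := primeTo_ratFunc h
  exact ⟨D, hD, RatFunc Fl, inferInstance, a, ha, fun m hm =>
    HasZeros.fractionRing (by omega) (fun c => hz m c hm) (RatFunc Fl)⟩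

/-- **function fields of one variable** -/
theorem IsCurveField.chainUp {l n r : ℕ} {d : Fin r → ℕ} {F Fl k : Type u} [Field F] [Field Fl]
    [Field k] [Algebra F Fl] [Algebra F k] (h : PrimeTo l F Fl) (hz : ChainZero n d Fl)
    (hk : IsCurveField F k) : ChainUp l n d k := by
  obtain ⟨t, ht, hfin⟩ := hk
  have h1 : ChainUp l n d (IntermediateField.adjoin F {t}) :=
    (chainUp_ratFunc h hz).of_ringEquiv (RatFunc.algEquivOfTranscendental t ht).toRingEquiv
  exact h1.of_finite

end ZC
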