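import Pool.Agent.Helper89.BC.Link
import Pool.Agent.Helper99.BD.ChainUp
import Pool.Agent.Helper99.BD.ChainK

/-!
# From stable zeros of chain systems to chains of rational curves
-/

set_option autoImplicit false

open MvPolynomial

namespace ZC

universe u

/-- Every stable zero of the chain system of `X`, `x`, `y` gives a chain of rational curves on `X`
from `x` to `y`. -/
def ChainSystems (L : Type u) [Field L] {r : ℕ} (n : ℕ) (d : Fin r → ℕ) (D : ℕ) : Prop :=
  ∀ X : ProjVar L n r, X.d = d → ∀ x y : Fin (n + 1) → L, X.IsPt x → X.IsPt y →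
    ∃ P : Fin r → ℕ → MvPolynomial (CVar D (n + 1) 1) L,
      (∀ a j, 0 < j → j < d a * (D + 1) → IsWeightedHomogeneous wt (P a j) (dg D (d a) j)) ∧
      ∀ (M : Type u) [Field M] [Algebra L M] (ξ : CVar D (n + 1) 1 → M), Stable ξ →
        (∀ a j, 0 < j → j < d a * (D + 1) → aeval ξ (P a j) = 0) →
        Chained X (fun i => algebraMap L M (x i)) fun i => algebraMap L M (y i)

theorem linkable_of_chainUp {L : Type u} [Field L] {n r : ℕ} {d : Fin r → ℕ}
    (h : ∀ l : ℕ, l.Prime → ChainUp l n d L) (hP : ∀ D, 2 ≤ D → ChainSystems L n d D) :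
    Linkable L n d := by
  intro X hX x y hx hy l hl
  obtain ⟨D, hD, N, _, _, hN, hZ⟩ := h l hl
  obtain ⟨P, hPh, hPc⟩ := hP D hD X hX x y hx hy
  have h1 := hZ 1 one_pos
  rw [one_mul] at h1
  obtain ⟨ξ, hξ, hξ0⟩ := h1 (fun a j _ => map (algebraMap L N) (P a j)) (by
    intro a j _ h0 h1 c hc
    refine hPh a j h0 h1 (d := c) fun h2 => hc ?_
    rw [coeff_map, h2, map_zero])
  obtain ⟨E, _, _, _, _, hfin, hcop, ξ', hξ', hg⟩ := hN.descend ξ
  refine ⟨E, inferInstance, inferInstance, hfin, hcop, hPc E ξ' ?_ ?_⟩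
  · intro k hk hkD
    obtain ⟨s, hs, hs0⟩ := hξ k hk hkD
    refine ⟨s, hs, fun h2 => hs0 ?_⟩
    rw [← hξ' s, h2, map_zero]
  · intro a j h0 h1
    have h2 := hg (P a j) (hξ0 a j 0 h0 h1)
    rwa [eval_map, ← aeval_def] at h2

/-- **global fields** -/
theorem IsCurveField.linkable {F k : Type u} [Field F] [Field k] [Algebra F k]
    (hk : IsCurveField F k) {n r : ℕ} {d : Fin r → ℕ}
    (hz : ∀ l : ℕ, l.Prime → ∃ (Fl : Type u) (_ : Field Fl) (_ : Algebra F Fl),
      PrimeTo l F Fl ∧ ChainZero n d Fl)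
    (hP : ∀ (L : Type u) [Field L] (D : ℕ), 2 ≤ D → ChainSystems L n d D)
    (L : Type u) [Field L] [Algebra k L] [FiniteDimensional k L] : Linkable L n d := by
  refine linkable_of_chainUp (fun l hl => ?_) (hP L)
  obtain ⟨Fl, _, _, h1, h2⟩ := hz l hl
  exact (IsCurveField.chainUp h1 h2 hk).of_finite

/-- **the field `K` and its finite extensions** -/
theorem linkable_of_finite {K : Type u} [Field K] {n r : ℕ} {d : Fin r → ℕ}
    (h : ∀ l : ℕ, l.Prime → ChainUp l n d K)
    (hP : ∀ (L : Type u) [Field L] (D : ℕ), 2 ≤ D → ChainSystems L n d D)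
    (L : Type u) [Field L] [Algebra K L] [FiniteDimensional K L] : Linkable L n d :=
  linkable_of_chainUp (fun l hl => (h l hl).of_finite) (hP L)

end ZC
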