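import Mathlib
import Pool.Agent.Helper99.BD.Defs

/-!
# The sums of the costs

`Wsum l m` is the sum of the costs of the weights `1, …, m`.  For `e = l ^ k`
`2 l W (c e) = e ^ 2 (2 l W (c) + k (l - 1) c ^ 2)`.
-/

set_option autoImplicit false

namespace ZC

/-- the sum of the costs of the weights `1, …, m` -/
def Wsum (l m : ℕ) : ℕ := ∑ j ∈ Finset.range m, wcost l 1 (j + 1)

theorem Wsum_succ (l m : ℕ) : Wsum l (m + 1) = Wsum l m + wcost l 1 (m + 1) :=
  Finset.sum_range_succ _ _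

theorem Wsum_zero (l : ℕ) : Wsum l 0 = 0 := rfl

theorem wcost_add {l : ℕ} (m t : ℕ) (ht0 : 0 < t) (ht : t < l) :
    wcost l 1 (l * m + t) = l * m + t := by
  unfold wcost
  have h1 : ¬ l ∣ l * m + t := by
    intro h
    rw [Nat.dvd_add_right (dvd_mul_right l m)] at h
    exact absurd (Nat.le_of_dvd ht0 h) (not_le.mpr ht)
  rw [padicValNat.eq_zero_of_not_dvd h1]
  ring

theorem wcost_mul {l : ℕ} (hl : l.Prime) {m : ℕ} (hm : 0 < m) :
    wcost l 1 (l * m) = l ^ 2 * wcost l 1 m := by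
  unfold wcost
  have : Fact l.Prime := ⟨hl⟩
  rw [padicValNat.mul hl.ne_zero hm.ne', padicValNat_self]
  ring

/-- a block of `t` weights not divisible by `l` -/
theorem Wsum_add {l : ℕ} (m t : ℕ) (ht : t < l) :
    2 * Wsum l (l * m + t) = 2 * Wsum l (l * m) + 2 * t * (l * m) + t * (t + 1) := by
  induction t with
  | zero => simp
  | succ t ih =>
    rw [← add_assoc, Wsum_succ, mul_add, ih (by omega), add_assoc (l * m) t 1,
      wcost_add m (t + 1) (by omega) ht]
    ring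

/-- the recursion -/
theorem Wsum_mul {l : ℕ} (hl : l.Prime) (m : ℕ) :
    2 * Wsum l (l * m) = 2 * l ^ 2 * Wsum l m + l * (l - 1) * m ^ 2 := by
  induction m with
  | zero => simp [Wsum_zero]
  | succ m ih =>
    have hl2 := hl.two_le
    have h1 : Wsum l (l * (m + 1)) = Wsum l (l * m + (l - 1)) + wcost l 1 (l * (m + 1)) := by
      have h2 : l * (m + 1) = l * m + (l - 1) + 1 := by
        rw [mul_add, mul_one]
        omega
      rw [h2, Wsum_succ]
    have h3 := Wsum_add (l := l) m (l - 1) (by omega)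
    rw [h1, mul_add, h3, ih, wcost_mul hl (Nat.succ_pos m), Wsum_succ]
    obtain ⟨q, hq⟩ : ∃ q, l = q + 1 := ⟨l - 1, by omega⟩
    rw [hq, Nat.add_sub_cancel]
    ring

/-- the exact value for multiples of a power of `l` -/
theorem Wsum_pow {l : ℕ} (hl : l.Prime) (c k : ℕ) :
    2 * l * Wsum l (c * l ^ k) =
      l ^ (2 * k) * (2 * l * Wsum l c + k * (l - 1) * c ^ 2) := by
  induction k with
  | zero => simp
  | succ k ih =>
    have h1 := Wsum_mul hl (c * l ^ k)
    have h2 : c * l ^ (k + 1) = l * (c * l ^ k) := by ring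
    rw [h2]
    calc 2 * l * Wsum l (l * (c * l ^ k)) = l * (2 * Wsum l (l * (c * l ^ k))) := by ring
      _ = l ^ 2 * (2 * l * Wsum l (c * l ^ k)) + l ^ 2 * (l - 1) * (c * l ^ k) ^ 2 := by
          rw [h1]
          ring
      _ = _ := by
          rw [ih]
          ring

/-- for `e` a large power of `l` the costs of the equations of the curves of degree `e` are less
than the values of the coefficients of the curves -/
theorem exists_pow {l : ℕ} (hl : l.Prime) {r n : ℕ} (d : Fin r → ℕ)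
    (hn : ∑ a, (d a ^ 2 + (d a - 1) ^ 2) ≤ n) :
    ∃ e, 0 < e ∧ ∑ a, (Wsum l (d a * e) + Wsum l ((d a - 1) * e)) < (n + 1) * Wsum l e := by
  have hl2 := hl.two_le
  set A : ℕ := ∑ a, (2 * l * Wsum l (d a) + 2 * l * Wsum l (d a - 1)) with hA
  refine ⟨l ^ A, pow_pos hl.pos _, ?_⟩
  have h1 : Wsum l 1 = 1 := by
    have : Fact l.Prime := ⟨hl⟩
    simp [Wsum, wcost]
  have h2 : 2 * l * ∑ a, (Wsum l (d a * l ^ A) + Wsum l ((d a - 1) * l ^ A)) =
      l ^ (2 * A) * (A + A * (l - 1) * ∑ a, (d a ^ 2 + (d a - 1) ^ 2)) := by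
    have h4 : A + A * (l - 1) * ∑ a, (d a ^ 2 + (d a - 1) ^ 2) =
        ∑ a, (2 * l * Wsum l (d a) + 2 * l * Wsum l (d a - 1) +
          A * (l - 1) * (d a ^ 2 + (d a - 1) ^ 2)) := by
      rw [Finset.mul_sum]
      conv_lhs => rw [hA]
      rw [← hA, ← Finset.sum_add_distrib]
    rw [h4, Finset.mul_sum, Finset.mul_sum]
    refine Finset.sum_congr rfl fun a _ => ?_
    rw [mul_add, Wsum_pow hl, Wsum_pow hl]
    ring
  have h3 : 2 * l * ((n + 1) * Wsum l (l ^ A)) =
      l ^ (2 * A) * ((n + 1) * (2 * l + A * (l - 1))) := by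
    have h4 := Wsum_pow hl 1 A
    rw [one_mul, h1] at h4
    calc 2 * l * ((n + 1) * Wsum l (l ^ A)) = (n + 1) * (2 * l * Wsum l (l ^ A)) := by ring
      _ = _ := by
          rw [h4]
          ring
  have h5 : A + A * (l - 1) * ∑ a, (d a ^ 2 + (d a - 1) ^ 2) <
      (n + 1) * (2 * l + A * (l - 1)) := by
    have h6 : A * (l - 1) * ∑ a, (d a ^ 2 + (d a - 1) ^ 2) ≤ A * (l - 1) * n :=
      Nat.mul_le_mul_left _ hn
    have h7 : A * 1 ≤ A * (l - 1) := Nat.mul_le_mul_left _ (by omega)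
    have h8 : (n + 1) * (2 * l + A * (l - 1)) =
        A * (l - 1) * n + A * (l - 1) + (n + 1) * (2 * l) := by ring
    have h9 : 0 < (n + 1) * (2 * l) := by positivity
    omega
  have h10 : 2 * l * ∑ a, (Wsum l (d a * l ^ A) + Wsum l ((d a - 1) * l ^ A)) <
      2 * l * ((n + 1) * Wsum l (l ^ A)) := by
    rw [h2, h3]
    exact Nat.mul_lt_mul_of_pos_left h5 (pow_pos hl.pos _)
  exact lt_of_mul_lt_mul_left h10 (Nat.zero_le _)

end ZC
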