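import Mathlib
import Pool.Agent.Helper72.ZC.Defs
import Pool.Agent.Helper99.BD.Defs
import Pool.Agent.Helper99.BD.Sum

/-!
# Rational curves joining two points

`X` an intersection of hypersurfaces of degrees `d a` in `ℙⁿ`, `∑ (d a ^ 2 + (d a - 1) ^ 2) ≤ n`.
Two points `x, y` of `X` are joined over an extension of degree prime to `l` with a common third
point by curves `x + ψ(s)`, `y + ψ(s)`, `ψ(s) = ∑ s ^ (i + 1) z i`.
-/

set_option autoImplicit false

open MvPolynomial

namespace ZC

universe u v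

section gen

variable {M : Type u} [Field M] {n e : ℕ}

/-- the weight of the coefficient of `s ^ (i + 1)` -/
def cwt (n e : ℕ) (q : Fin e × Fin (n + 1)) : ℕ := q.1 + 1

/-- the coordinates of the generic curve through `x` -/
noncomputable def curveGen (e : ℕ) (x : Fin (n + 1) → M) (c : Fin (n + 1)) :
    Polynomial (MvPolynomial (Fin e × Fin (n + 1)) M) :=
  Polynomial.C (C (x c)) + ∑ i : Fin e, Polynomial.C (X (i, c)) * Polynomial.X ^ ((i : ℕ) + 1)

/-- the graded kind: pairs `(P, Q)` of polynomials in `s` of degree `≤ m e`, with the coefficients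
of `s ^ k` weighted homogeneous of weight `k`, and the same for `k > (m - 1) e` -/
def Kind (n e m : ℕ) (P : Polynomial (MvPolynomial (Fin e × Fin (n + 1)) M) ×
    Polynomial (MvPolynomial (Fin e × Fin (n + 1)) M)) : Prop :=
  (∀ k, IsWeightedHomogeneous (cwt n e) (P.1.coeff k) k) ∧
  (∀ k, IsWeightedHomogeneous (cwt n e) (P.2.coeff k) k) ∧
  (∀ k, m * e < k → P.1.coeff k = 0) ∧ (∀ k, m * e < k → P.2.coeff k = 0) ∧
  (∀ k, m * e < k + e → P.1.coeff k = P.2.coeff k)

lemma Kind.mul {m m' : ℕ} {P Q : Polynomial (MvPolynomial (Fin e × Fin (n + 1)) M) ×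
    Polynomial (MvPolynomial (Fin e × Fin (n + 1)) M)} (hP : Kind n e m P) (hQ : Kind n e m' Q) :
    Kind n e (m + m') (P * Q) := by
  obtain ⟨a1, a2, a3, a4, a5⟩ := hP
  obtain ⟨b1, b2, b3, b4, b5⟩ := hQ
  refine ⟨fun k => ?_, fun k => ?_, fun k hk => ?_, fun k hk => ?_, fun k hk => ?_⟩
  · rw [Prod.fst_mul, Polynomial.coeff_mul]
    refine IsWeightedHomogeneous.sum _ _ _ fun q hq => ?_
    have h1 := (a1 q.1).mul (b1 q.2)
    rwa [Finset.HasAntidiagonal.mem_antidiagonal.mp hq] at h1
  · rw [Prod.snd_mul, Polynomial.coeff_mul]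
    refine IsWeightedHomogeneous.sum _ _ _ fun q hq => ?_
    have h1 := (a2 q.1).mul (b2 q.2)
    rwa [Finset.HasAntidiagonal.mem_antidiagonal.mp hq] at h1
  · rw [Prod.fst_mul, Polynomial.coeff_mul]
    refine Finset.sum_eq_zero fun q hq => ?_
    have h1 := Finset.HasAntidiagonal.mem_antidiagonal.mp hq
    rcases lt_or_ge (m * e) q.1 with h2 | h2
    · rw [a3 _ h2, zero_mul]
    · rw [b3 _ (by rw [add_mul] at hk; omega), mul_zero]
  · rw [Prod.snd_mul, Polynomial.coeff_mul]
    refine Finset.sum_eq_zero fun q hq => ?_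
    have h1 := Finset.HasAntidiagonal.mem_antidiagonal.mp hq
    rcases lt_or_ge (m * e) q.1 with h2 | h2
    · rw [a4 _ h2, zero_mul]
    · rw [b4 _ (by rw [add_mul] at hk; omega), mul_zero]
  · rw [Prod.fst_mul, Prod.snd_mul, Polynomial.coeff_mul, Polynomial.coeff_mul]
    refine Finset.sum_congr rfl fun q hq => ?_
    have h1 := Finset.HasAntidiagonal.mem_antidiagonal.mp hq
    rw [add_mul] at hk
    rcases lt_or_ge (m * e) (q.1 + e) with h2 | h2
    · rcases lt_or_ge (m' * e) (q.2 + e) with h3 | h3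
      · rw [a5 _ h2, b5 _ h3]
      · rw [a3 _ (by omega), a4 _ (by omega), zero_mul, zero_mul]
    · rw [b3 _ (by omega), b4 _ (by omega), mul_zero, mul_zero]

lemma Kind.add {m : ℕ} {P Q : Polynomial (MvPolynomial (Fin e × Fin (n + 1)) M) ×
    Polynomial (MvPolynomial (Fin e × Fin (n + 1)) M)} (hP : Kind n e m P) (hQ : Kind n e m Q) :
    Kind n e m (P + Q) := by
  obtain ⟨a1, a2, a3, a4, a5⟩ := hP
  obtain ⟨b1, b2, b3, b4, b5⟩ := hQ
  refine ⟨fun k => ?_, fun k => ?_, fun k hk => ?_, fun k hk => ?_, fun k hk => ?_⟩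
  · rw [Prod.fst_add, Polynomial.coeff_add]
    exact (a1 k).add (b1 k)
  · rw [Prod.snd_add, Polynomial.coeff_add]
    exact (a2 k).add (b2 k)
  · rw [Prod.fst_add, Polynomial.coeff_add, a3 k hk, b3 k hk, add_zero]
  · rw [Prod.snd_add, Polynomial.coeff_add, a4 k hk, b4 k hk, add_zero]
  · rw [Prod.fst_add, Prod.snd_add, Polynomial.coeff_add, Polynomial.coeff_add, a5 k hk, b5 k hk]

lemma Kind.zero (m : ℕ) : Kind (M := M) n e m 0 := by
  refine ⟨fun k => ?_, fun k => ?_, fun k _ => ?_, fun k _ => ?_, fun k _ => ?_⟩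
  · simpa using isWeightedHomogeneous_zero _ _ _
  · simpa using isWeightedHomogeneous_zero _ _ _
  · simp
  · simp
  · simp

lemma Kind.const (a : M) : Kind n e 0
    ((Polynomial.C (C a), Polynomial.C (C a)) :
      Polynomial (MvPolynomial (Fin e × Fin (n + 1)) M) ×
        Polynomial (MvPolynomial (Fin e × Fin (n + 1)) M)) := by
  have h1 : ∀ k, IsWeightedHomogeneous (cwt n e)
      ((Polynomial.C (C a : MvPolynomial (Fin e × Fin (n + 1)) M)).coeff k) k := by
    intro k
    rw [Polynomial.coeff_C]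
    split_ifs with h
    · rw [h]
      exact isWeightedHomogeneous_C _ _
    · exact isWeightedHomogeneous_zero _ _ _
  have h2 : ∀ k, 0 * e < k →
      (Polynomial.C (C a : MvPolynomial (Fin e × Fin (n + 1)) M)).coeff k = 0 := by
    intro k hk
    rw [Polynomial.coeff_C, if_neg (by omega)]
  exact ⟨h1, h1, h2, h2, fun _ _ => rfl⟩

lemma coeff_curveGen (x : Fin (n + 1) → M) (c : Fin (n + 1)) (k : ℕ) :
    (curveGen e x c).coeff k = (if k = 0 then C (x c) else 0) +
      ∑ i : Fin e, if k = (i : ℕ) + 1 then X (i, c) else 0 := by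
  simp only [curveGen, Polynomial.coeff_add, Polynomial.finsetSum_coeff,
    Polynomial.coeff_C_mul_X_pow, Polynomial.coeff_C]

lemma kind_curveGen (x y : Fin (n + 1) → M) (c : Fin (n + 1)) :
    Kind n e 1 (curveGen e x c, curveGen e y c) := by
  have h1 : ∀ (x : Fin (n + 1) → M) (k : ℕ),
      IsWeightedHomogeneous (cwt n e) ((curveGen e x c).coeff k) k := by
    intro x k
    rw [coeff_curveGen]
    refine IsWeightedHomogeneous.add ?_ (IsWeightedHomogeneous.sum _ _ _ fun i _ => ?_)
    · split_ifs with h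
      · rw [h]
        exact isWeightedHomogeneous_C _ _
      · exact isWeightedHomogeneous_zero _ _ _
    · split_ifs with h
      · have h2 := isWeightedHomogeneous_X M (cwt n e) (i, c)
        rw [h]
        exact h2
      · exact isWeightedHomogeneous_zero _ _ _
  have h2 : ∀ (x : Fin (n + 1) → M) (k : ℕ), 1 * e < k → (curveGen e x c).coeff k = 0 := by
    intro x k hk
    rw [coeff_curveGen, if_neg (by omega), zero_add]
    refine Finset.sum_eq_zero fun i _ => if_neg ?_
    have := i.2
    omega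
  refine ⟨h1 x, h1 y, h2 x, h2 y, fun k hk => ?_⟩
  have h3 : k ≠ 0 := by omega
  rw [coeff_curveGen, coeff_curveGen, if_neg h3, if_neg h3]

/-- the value of a form on the generic curve -/
noncomputable def curveVal (e : ℕ) (x : Fin (n + 1) → M) (f : MvPolynomial (Fin (n + 1)) M) :
    Polynomial (MvPolynomial (Fin e × Fin (n + 1)) M) :=
  eval₂ (Polynomial.C.comp C) (curveGen e x) f

lemma kind_curveVal (x y : Fin (n + 1) → M) {f : MvPolynomial (Fin (n + 1)) M} {d : ℕ}
    (hf : f.IsHomogeneous d) : Kind n e d (curveVal e x f, curveVal e y f) := by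
  have h1 : (curveVal e x f, curveVal e y f) =
      eval₂ (((Polynomial.C.comp C : M →+* Polynomial (MvPolynomial (Fin e × Fin (n + 1)) M))).prod
        (Polynomial.C.comp C)) (fun c => (curveGen e x c, curveGen e y c)) f := by
    refine Prod.ext ?_ ?_
    · have h2 := eval₂_comp_left (RingHom.fst (Polynomial (MvPolynomial (Fin e × Fin (n + 1)) M))
        (Polynomial (MvPolynomial (Fin e × Fin (n + 1)) M)))
        (((Polynomial.C.comp C : M →+* Polynomial (MvPolynomial (Fin e × Fin (n + 1)) M))).prod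
        (Polynomial.C.comp C)) (fun c => (curveGen e x c, curveGen e y c)) f
      exact h2.symm
    · have h2 := eval₂_comp_left (RingHom.snd (Polynomial (MvPolynomial (Fin e × Fin (n + 1)) M))
        (Polynomial (MvPolynomial (Fin e × Fin (n + 1)) M)))
        (((Polynomial.C.comp C : M →+* Polynomial (MvPolynomial (Fin e × Fin (n + 1)) M))).prod
        (Polynomial.C.comp C)) (fun c => (curveGen e x c, curveGen e y c)) f
      exact h2.symm
  rw [h1]
  exact eval₂_mem _ (Kind n e) (Kind.const 1) (fun _ _ _ _ => Kind.mul) Kind.zero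
    (fun _ _ _ => Kind.add) (fun a => Kind.const a) (fun _ => 1) _
    (fun c => kind_curveGen x y c) hf

/-- special curves -/
lemma map_curveVal (x : Fin (n + 1) → M) (f : MvPolynomial (Fin (n + 1)) M)
    (z : Fin e × Fin (n + 1) → M) :
    (curveVal e x f).map (eval z) =
      aeval (fun c => Polynomial.C (x c) +
        ∑ i : Fin e, Polynomial.C (z (i, c)) * Polynomial.X ^ ((i : ℕ) + 1)) f := by
  unfold curveVal
  rw [← Polynomial.coe_mapRingHom, hom_eval₂, aeval_def]
  have h1 : (Polynomial.mapRingHom (eval z)).comp (Polynomial.C.comp C) =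
      algebraMap M (Polynomial M) := by
    ext a
    simp
  rw [h1]
  congr 1
  funext c
  simp [curveGen, Polynomial.map_sum]

lemma coeff_zero_curveVal (x : Fin (n + 1) → M) (f : MvPolynomial (Fin (n + 1)) M) :
    (curveVal e x f).coeff 0 = C (eval x f) := by
  have h1 : (curveVal e x f).coeff 0 =
      Polynomial.constantCoeff (curveVal e x f) := rfl
  rw [h1]
  unfold curveVal
  rw [hom_eval₂]
  have h2 : (Polynomial.constantCoeff : Polynomial (MvPolynomial (Fin e × Fin (n + 1)) M) →+* _).comp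
      (Polynomial.C.comp C) = C := by
    ext a
    simp
  rw [h2]
  have h3 : (fun c => Polynomial.constantCoeff (curveGen e x c)) =
      fun c => (C (x c) : MvPolynomial (Fin e × Fin (n + 1)) M) := by
    funext c
    rw [Polynomial.constantCoeff_apply, coeff_curveGen, if_pos rfl]
    simp
  rw [h3]
  have h5 := eval₂_comp_left (C : M →+* MvPolynomial (Fin e × Fin (n + 1)) M) (RingHom.id M) x f
  rw [eval₂_id, RingHom.comp_id] at h5
  exact h5.symm

/-- the curves over a field with `WTL l 1` -/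
theorem exists_curves {l : ℕ} (hl : l.Prime) (hM : WTL l 1 M) {r : ℕ}
    (f : Fin r → MvPolynomial (Fin (n + 1)) M) (d : Fin r → ℕ)
    (hf : ∀ a, (f a).IsHomogeneous (d a))
    (hn : ∑ a, (d a ^ 2 + (d a - 1) ^ 2) ≤ n) (x y : Fin (n + 1) → M)
    (hx : ∀ a, eval x (f a) = 0) (hy : ∀ a, eval y (f a) = 0) :
    ∃ (e : ℕ) (z : Fin e → Fin (n + 1) → M), z ≠ 0 ∧
      (∀ a, aeval (fun c => Polynomial.C (x c) +
        ∑ i : Fin e, Polynomial.C (z i c) * Polynomial.X ^ ((i : ℕ) + 1)) (f a) = 0) ∧
      (∀ a, aeval (fun c => Polynomial.C (y c) +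
        ∑ i : Fin e, Polynomial.C (z i c) * Polynomial.X ^ ((i : ℕ) + 1)) (f a) = 0) := by
  classical
  obtain ⟨e, he, hlt⟩ := exists_pow hl d hn
  let I : Type := Σ a : Fin r, Fin (d a * e) ⊕ Fin ((d a - 1) * e)
  let D : I → ℕ := fun q => match q.2 with
    | .inl j => (j : ℕ) + 1
    | .inr j => (j : ℕ) + 1
  let g : I → MvPolynomial (Fin e × Fin (n + 1)) M := fun q => match q.2 with
    | .inl j => (curveVal e x (f q.1)).coeff ((j : ℕ) + 1)
    | .inr j => (curveVal e y (f q.1)).coeff ((j : ℕ) + 1)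
  have hg : ∀ q, IsWeightedHomogeneous (cwt n e) (g q) (D q) := by
    rintro ⟨a, j | j⟩
    · exact (kind_curveVal x y (hf a)).1 _
    · exact (kind_curveVal x y (hf a)).2.1 _
  have hD : ∀ q, 0 < D q := by
    rintro ⟨a, j | j⟩
    · exact Nat.succ_pos _
    · exact Nat.succ_pos _
  have hsum : ∑ q : I, wcost l 1 (D q) < ∑ q : Fin e × Fin (n + 1), wcost l 1 (cwt n e q) := by
    have h1 : ∑ q : I, wcost l 1 (D q) =
        ∑ a, (Wsum l (d a * e) + Wsum l ((d a - 1) * e)) := by
      rw [Fintype.sum_sigma]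
      refine Finset.sum_congr rfl fun a _ => ?_
      rw [Fintype.sum_sum_type]
      congr 1
      · exact Fin.sum_univ_eq_sum_range (fun j => wcost l 1 (j + 1)) _
      · exact Fin.sum_univ_eq_sum_range (fun j => wcost l 1 (j + 1)) _
    have h2 : ∑ q : Fin e × Fin (n + 1), wcost l 1 (cwt n e q) = (n + 1) * Wsum l e := by
      rw [Fintype.sum_prod_type]
      simp only [cwt, Finset.sum_const, Finset.card_univ, Fintype.card_fin, smul_eq_mul]
      rw [← Finset.mul_sum]
      congr 1
      exact Fin.sum_univ_eq_sum_range (fun j => wcost l 1 (j + 1)) _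
    rw [h1, h2]
    exact hlt
  obtain ⟨z, hz0, hz⟩ := hM.exists_zero D (cwt n e) g hg hD (fun q => Nat.succ_pos _) hsum
  have hxz : ∀ a, (curveVal e x (f a)).map (eval z) = 0 := by
    intro a
    ext k
    rw [Polynomial.coeff_map, Polynomial.coeff_zero]
    rcases Nat.eq_zero_or_pos k with hk | hk
    · rw [hk, coeff_zero_curveVal, eval_C, hx a]
    · rcases lt_or_ge (d a * e) k with h1 | h1
      · rw [(kind_curveVal x y (hf a)).2.2.1 k h1, map_zero]
      · have h2 := hz ⟨a, .inl ⟨k - 1, by omega⟩⟩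
        simp only [g] at h2
        rwa [Nat.sub_add_cancel hk] at h2
  have hyz : ∀ a, (curveVal e y (f a)).map (eval z) = 0 := by
    intro a
    ext k
    rw [Polynomial.coeff_map, Polynomial.coeff_zero]
    rcases Nat.eq_zero_or_pos k with hk | hk
    · rw [hk, coeff_zero_curveVal, eval_C, hy a]
    · rcases lt_or_ge (d a * e) (k + e) with h1 | h1
      · have h3 := (kind_curveVal x y (hf a)).2.2.2.2 k h1
        simp only at h3
        rw [← h3, ← Polynomial.coeff_map, hxz a, Polynomial.coeff_zero]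
      · have h4 : k ≤ (d a - 1) * e := by
          rw [Nat.sub_mul, one_mul]
          omega
        have h2 := hz ⟨a, .inr ⟨k - 1, by omega⟩⟩
        simp only [g] at h2
        rwa [Nat.sub_add_cancel hk] at h2
  refine ⟨e, fun i c => z (i, c), fun h0 => hz0 ?_, fun a => ?_, fun a => ?_⟩
  · funext q
    exact congrFun (congrFun h0 q.1) q.2
  · rw [← hxz a, map_curveVal]
  · rw [← hyz a, map_curveVal]

end gen

/-- **the curves**: two points of an intersection of hypersurfaces with
`∑ (d a ^ 2 + (d a - 1) ^ 2) ≤ n` are joined, over an extension of degree prime to `l`, with a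
common third point by curves `x + ψ(s)` and `y + ψ(s)` -/
theorem WTLup.exists_curves {l : ℕ} (hl : l.Prime) {L : Type u} [Field L] (h : WTLup l L)
    {n r : ℕ} (X : ProjVar L n r) (hn : ∑ a, (X.d a ^ 2 + (X.d a - 1) ^ 2) ≤ n)
    {x y : Fin (n + 1) → L} (hx : X.IsPt x) (hy : X.IsPt y) :
    ∃ (L' : Type u) (_ : Field L') (_ : Algebra L L') (_ : FiniteDimensional L L'),
      (Module.finrank L L').Coprime l ∧ ∃ (e : ℕ) (z : Fin e → Fin (n + 1) → L'), z ≠ 0 ∧
        (∀ a, aeval (fun c => Polynomial.C (algebraMap L L' (x c)) +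
          ∑ i : Fin e, Polynomial.C (z i c) * Polynomial.X ^ ((i : ℕ) + 1)) (X.form a) = 0) ∧
        (∀ a, aeval (fun c => Polynomial.C (algebraMap L L' (y c)) +
          ∑ i : Fin e, Polynomial.C (z i c) * Polynomial.X ^ ((i : ℕ) + 1)) (X.form a) = 0) := by
  classical
  obtain ⟨M, _, _, hM, hW⟩ := h
  have hpt : ∀ {x : Fin (n + 1) → L}, X.IsPt x →
      ∀ a, eval (fun c => algebraMap L M (x c)) (map (algebraMap L M) (X.form a)) = 0 := by
    intro x hx a
    rw [eval_map]
    have h1 := eval₂_comp_left (algebraMap L M) (RingHom.id L) x (X.form a)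
    have h2 : eval₂ (RingHom.id L) x (X.form a) = 0 := by
      rw [eval₂_id]
      exact hx.2 a
    rw [h2, map_zero, RingHom.comp_id] at h1
    exact h1.symm
  obtain ⟨e, z, hz0, hxz, hyz⟩ := ZC.exists_curves hl hW
    (fun a => map (algebraMap L M) (X.form a)) X.d (fun a => (X.hom a).map _) hn
    (fun c => algebraMap L M (x c)) (fun c => algebraMap L M (y c)) (hpt hx) (hpt hy)
  obtain ⟨E, hE, hfin, -, hcop⟩ := hM
    (Finset.image (fun q : Fin e × Fin (n + 1) => z q.1 q.2) Finset.univ)
  have hz : ∀ i c, z i c ∈ E := fun i c =>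
    hE (Finset.mem_coe.mpr (Finset.mem_image.mpr ⟨(i, c), Finset.mem_univ _, rfl⟩))
  have key : ∀ {x : Fin (n + 1) → L} (a : Fin r),
      aeval (fun c => Polynomial.C (algebraMap L M (x c)) +
        ∑ i : Fin e, Polynomial.C (z i c) * Polynomial.X ^ ((i : ℕ) + 1))
        (map (algebraMap L M) (X.form a)) = 0 →
      aeval (fun c => Polynomial.C (algebraMap L E (x c)) +
        ∑ i : Fin e, Polynomial.C (⟨z i c, hz i c⟩ : E) * Polynomial.X ^ ((i : ℕ) + 1))
        (X.form a) = 0 := by
    intro x a h1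
    rw [aeval_map_algebraMap] at h1
    have h2 : Function.Injective (Polynomial.mapAlgHom (E.val)) :=
      Polynomial.map_injective _ E.val.injective
    apply h2
    rw [map_zero, comp_aeval_apply]
    rw [← h1]
    congr 2
    funext c
    simp [Polynomial.map_sum]
  refine ⟨E, inferInstance, inferInstance, hfin, hcop, e, fun i c => ⟨z i c, hz i c⟩,
    fun h0 => hz0 ?_, fun a => key a (hxz a), fun a => key a (hyz a)⟩
  funext i c
  have h1 := congrFun (congrFun h0 i) c
  exact congrArg Subtype.val h1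

end ZC
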