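import Pool.Agent.Helper15.FKS.Laurent
import Pool.Agent.Helper25.BD.Greenberg
import Pool.Agent.Helper99.BD.Zero
import Pool.Agent.Helper99.BD.Local
import Pool.Agent.Helper99.BD.Curves
import Pool.Agent.Helper89.BD.Gen

/-!
# Weighted Tsen-Lang over function fields over finite fields and their completions
-/

set_option autoImplicit false

open MvPolynomial

namespace ZC

universe u

/-- function fields over finite fields -/
theorem IsCurveField.wtlup' {F k : Type u} [Field F] [Finite F] [Field k] [Algebra F k]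
    (hk : IsCurveField F k) {l : ℕ} (hl : l.Prime) : WTLup l k := by
  obtain ⟨Fl, _, _, h1, -, h3⟩ := exists_wtl_zero F hl
  exact IsCurveField.wtlup hl.pos h1 h3 hk

/-- the completions of function fields over finite fields -/
theorem Place.wtlup {F k : Type u} [Field F] [Finite F] [Field k] [Algebra F k]
    (hk : IsCurveField F k) (v : Place F k) {l : ℕ} (hl : l.Prime) : WTLup l v.Completion := by
  obtain ⟨κ, _, _, ⟨e⟩⟩ := exists_laurent hk v
  obtain ⟨Fl, _, _, h1, h2, h3⟩ := exists_wtl_zero κ hl
  exact (wtlup_laurent κ Fl hl.pos h1 h3 (greenberg κ Fl)).of_ringEquiv e.symm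

/-- points of `X` over a finite extension of a field with `WTLup` are rationally equivalent -/
theorem equiv_of_wtlup {K L : Type u} [Field K] [Field L] [Algebra K L] [FiniteDimensional K L]
    (hK : ∀ l : ℕ, l.Prime → WTLup l K) {n r : ℕ} (X : ProjVar K n r)
    (hn : ∑ a, (X.d a ^ 2 + (X.d a - 1) ^ 2) ≤ n) (x y : Fin (n + 1) → L)
    (hx : X.IsPt x) (hy : X.IsPt y) : ptCycle X x hx - ptCycle X y hy ∈ ratEquiv X := by
  refine equiv_of_joined X x y hx hy fun l hl => ?_
  have hpt : ∀ {x : Fin (n + 1) → L}, X.IsPt x → (X.map (algebraMap K L)).IsPt x := by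
    intro x hx
    refine ⟨hx.1, fun a => ?_⟩
    change aeval x (map (algebraMap K L) (X.form a)) = 0
    rw [aeval_map_algebraMap]
    exact hx.2 a
  obtain ⟨M, _, _, hfin, hcop, e, z, hz, h1, h2⟩ :=
    (hK l hl).of_finite.exists_curves (L := L) hl (X.map (algebraMap K L)) hn (hpt hx) (hpt hy)
  exact ⟨M, inferInstance, inferInstance, hfin, hcop, e, z, hz, fun a => ⟨h1 a, h2 a⟩⟩

end ZC
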